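import Pool.Agent.Helper63.OC.Gamma

/-! # Components, cliques and spanning classes -/

set_option autoImplicit false

namespace Pool.Agent.Helper63.OC

variable {V : Type*}

/-- connected component of `v` -/
def comp (H : SimpleGraph V) (v : V) : Set V := {x | H.Reachable v x}

/-- connection in the complement, inside `M` -/
def coR (H : SimpleGraph V) (M : Set V) (a b : V) : Prop :=
  Relation.ReflTransGen (fun a b => a ∈ M ∧ b ∈ M ∧ ¬ H.Adj a b) a b

theorem self_mem_comp (H : SimpleGraph V) (v : V) : v ∈ comp H v := SimpleGraph.Reachable.refl _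

theorem comp_eq {H : SimpleGraph V} {v x : V} (h : x ∈ comp H v) : comp H x = comp H v := by
  ext y
  exact ⟨fun hy => SimpleGraph.Reachable.trans h hy,
    fun hy => SimpleGraph.Reachable.trans (SimpleGraph.Reachable.symm h) hy⟩

theorem cross {H : SimpleGraph V} {U : Set V} {a b : V} (h : H.Reachable a b) (ha : a ∈ U)
    (hb : b ∉ U) : ∃ x y, x ∈ U ∧ y ∉ U ∧ H.Adj x y ∧ H.Reachable a x := by
  obtain ⟨p⟩ := h
  induction p with
  | nil => exact absurd ha hb
  | @cons u v w huv p ih =>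
    by_cases hv : v ∈ U
    · obtain ⟨x, y, h1, h2, h3, h4⟩ := ih hv hb
      exact ⟨x, y, h1, h2, h3, huv.reachable.trans h4⟩
    · exact ⟨u, v, ha, hv, huv, SimpleGraph.Reachable.refl _⟩

theorem cls_reach {H : SimpleGraph V} {p q : V × V} (hp : H.Adj p.1 p.2) (h : Cls H p q) :
    H.Reachable p.1 q.1 ∧ H.Reachable p.1 q.2 := by
  unfold Cls at h
  induction h with
  | refl => exact ⟨SimpleGraph.Reachable.refl _, hp.reachable⟩
  | @tail q r _ hs ih =>
    obtain ⟨i1, i2⟩ := ih
    obtain ⟨s1, s2, s3 | s3⟩ := hs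
    · rw [s3.1] at i1
      exact ⟨i1, i1.trans s2.reachable⟩
    · rw [s3.1] at i2
      exact ⟨i2.trans s2.symm.reachable, i2⟩

theorem sup_reach {H : SimpleGraph V} {p : V × V} (hp : H.Adj p.1 p.2) {x : V}
    (hx : x ∈ sup H p) : H.Reachable p.1 x := by
  obtain ⟨y, hy | hy⟩ := hx
  · exact (cls_reach hp hy).1
  · exact (cls_reach hp hy).2

theorem sup_sub_comp {H : SimpleGraph V} {p : V × V} (hp : H.Adj p.1 p.2) {x : V}
    (hx : x ∈ sup H p) : sup H p ⊆ comp H x := fun _ hy =>
  (sup_reach hp hx).symm.trans (sup_reach hp hy)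

theorem fst_mem_sup {H : SimpleGraph V} (p : V × V) : p.1 ∈ sup H p :=
  ⟨p.2, Or.inl (Cls.refl p)⟩

theorem snd_mem_sup {H : SimpleGraph V} (p : V × V) : p.2 ∈ sup H p :=
  ⟨p.1, Or.inr (Cls.refl p)⟩

section cliques

variable [DecidableEq V]

theorem clique_extend {H : SimpleGraph V} {k : ℕ} {Q : Finset V} (hQ : H.IsNClique k Q) {x : V}
    (hx : ∀ u ∈ Q, H.Adj x u) : H.IsNClique (k + 1) (insert x Q) := hQ.insert hx

theorem span_of_clique {H : SimpleGraph V} {k : ℕ} (hfree : H.CliqueFree (k + 1)) {p : V × V}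
    (hp : H.Adj p.1 p.2) {Q : Finset V} (hQ : H.IsNClique k Q) (hQs : ∀ u ∈ Q, u ∈ sup H p)
    {x : V} (hx : x ∈ sup H p) : sup H p = comp H x := by
  apply Set.Subset.antisymm (sup_sub_comp hp hx)
  intro y hy
  by_contra hcon
  obtain ⟨a, b, ha, hb, hab, -⟩ := cross (U := sup H p) (show H.Reachable x y from hy) hx hcon
  exact hfree _ (clique_extend hQ fun u hu => sup_module hp hb ha hab.symm (hQs u hu))

theorem hits {H : SimpleGraph V} {k : ℕ} (hfree : H.CliqueFree (k + 1)) {p : V × V}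
    (hp : H.Adj p.1 p.2) {Q : Finset V} (hQ : H.IsNClique k Q) {v : V} (hv : v ∈ Q)
    (hvs : v ∈ sup H p) : ∃ u ∈ Q, Sam H p v u := by
  by_contra hcon
  push Not at hcon
  obtain ⟨w, hw⟩ := hvs
  have hvw : H.Adj v w := hw.adj hp
  refine hfree _ (clique_extend hQ (x := w) fun u hu => ?_)
  by_cases huv : u = v
  · rw [huv]; exact hvw.symm
  · by_contra hwu
    have hvu : H.Adj v u := hQ.isClique hv hu (Ne.symm huv)
    exact hcon u hu (hw.left hvw hvu hwu)

theorem type_two {H : SimpleGraph V} {k : ℕ} (hfree : H.CliqueFree (k + 1)) {M : Set V}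
    {Q : Finset V} (hQ : H.IsNClique k Q) (hQM : ∀ u ∈ Q, u ∈ M) {v x : V} (hx : x ∈ M)
    (hvx : ¬ coR H M v x) : ∃ u ∈ Q, ¬ coR H M v u := by
  by_contra hcon
  push Not at hcon
  refine hfree _ (clique_extend hQ (x := x) fun u hu => ?_)
  by_contra hxu
  exact hvx (Relation.ReflTransGen.tail (hcon u hu) ⟨hQM u hu, hx, fun h => hxu h.symm⟩)

/-- `z 0, ..., z (k-1)` is a clique -/
def CM (H : SimpleGraph V) (k : ℕ) (z : ℕ → V) : Prop :=
  ∀ i < k, ∀ j < k, i ≠ j → H.Adj (z i) (z j)

theorem CM.clique {H : SimpleGraph V} {k : ℕ} {z : ℕ → V} (hz : CM H k z) :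
    H.IsNClique k ((Finset.range k).image z) := by
  constructor
  · intro a ha b hb hab
    simp only [Finset.coe_image, Set.mem_image, Finset.coe_range, Set.mem_Iio] at ha hb
    obtain ⟨i, hi, rfl⟩ := ha
    obtain ⟨j, hj, rfl⟩ := hb
    exact hz i hi j hj (fun h => hab (by rw [h]))
  · rw [Finset.card_image_of_injOn, Finset.card_range]
    intro i hi j hj hij
    simp only [Finset.coe_range, Set.mem_Iio] at hi hj
    by_contra hne
    have := hz i hi j hj hne
    rw [hij] at this
    exact H.loopless.irrefl _ this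

theorem exists_CM {H : SimpleGraph V} {k : ℕ} {Q : Finset V} (hQ : H.IsNClique k Q)
    (hk : 0 < k) : ∃ z : ℕ → V, CM H k z ∧ ∀ i < k, z i ∈ Q := by
  have hc : Q.card = k := hQ.card_eq
  let e := Q.equivFin
  have hne : Q.Nonempty := by rw [← Finset.card_pos, hc]; exact hk
  obtain ⟨q, hq⟩ := hne
  refine ⟨fun i => if h : i < Q.card then (e.symm ⟨i, h⟩ : V) else q, ?_, ?_⟩
  · intro i hi j hj hij
    have hi' : i < Q.card := by omega
    have hj' : j < Q.card := by omega
    simp only [hi', hj', dif_pos]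
    apply hQ.isClique (Subtype.prop _) (Subtype.prop _)
    intro h
    have := e.symm.injective (Subtype.ext h)
    simp only [Fin.mk.injEq] at this
    exact hij this
  · intro i hi
    have hi' : i < Q.card := by omega
    simp only [hi', dif_pos]
    exact Subtype.prop _

theorem exists_index {H : SimpleGraph V} {k : ℕ} (hfree : H.CliqueFree (k + 1)) {M : Set V}
    {z : ℕ → V} (hz : CM H k z) (hzM : ∀ i < k, z i ∈ M) {v : V} (hv : v ∈ M) :
    ∃ i < k, coR H M v (z i) := by
  by_contra hcon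
  push Not at hcon
  refine hfree _ (clique_extend hz.clique (x := v) fun u hu => ?_)
  simp only [Finset.mem_image, Finset.mem_range] at hu
  obtain ⟨i, hi, rfl⟩ := hu
  by_contra h
  exact hcon i hi (Relation.ReflTransGen.single ⟨hv, hzM i hi, h⟩)

end cliques

theorem exists_span {H : SimpleGraph V} {v w : V} (hvw : H.Adj v w) (hfin : (comp H v).Finite)
    (hco : ∀ x ∈ comp H v, coR H (comp H v) v x) :
    ∃ p : V × V, H.Adj p.1 p.2 ∧ sup H p = comp H v := by
  set M := comp H v with hM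
  let s : Set (V × V) := {p | H.Adj p.1 p.2 ∧ p.1 ∈ M}
  have hs : s.Finite := by
    apply (hfin.prod hfin).subset
    rintro ⟨a, b⟩ ⟨h1, h2⟩
    exact ⟨h2, SimpleGraph.Reachable.trans h2 h1.reachable⟩
  have hne : s.Nonempty := ⟨(v, w), hvw, self_mem_comp H v⟩
  obtain ⟨p, hps, hmax⟩ := Set.exists_max_image s (fun p => (sup H p).ncard) hs hne
  have hp : H.Adj p.1 p.2 := hps.1
  have hcompM : ∀ x ∈ M, comp H x = M := fun x hx => comp_eq hx
  have hsubM : ∀ q ∈ s, sup H q ⊆ M := by
    intro q hq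
    have := sup_sub_comp hq.1 (fst_mem_sup q)
    rwa [hcompM _ hq.2] at this
  refine ⟨p, hp, ?_⟩
  set U := sup H p with hU
  have hUM : U ⊆ M := hsubM p hps
  by_contra hne'
  have hpU : p.1 ∈ U := fst_mem_sup p
  obtain ⟨m, hmM, hmU⟩ : ∃ m ∈ M, m ∉ U := by
    by_contra hc
    push Not at hc
    exact hne' (Set.Subset.antisymm hUM hc)
  let N : Set V := {x | x ∈ M ∧ x ∉ U ∧ ∃ y ∈ U, H.Adj x y}
  have hNall : ∀ x ∈ N, ∀ a ∈ U, H.Adj x a := by
    rintro x ⟨_, hxU, y, hy, hxy⟩ a ha
    exact sup_module hp hxU hy hxy ha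
  have hreach : ∀ x ∈ M, H.Reachable p.1 x := fun x hx =>
    SimpleGraph.Reachable.trans (SimpleGraph.Reachable.symm (hps.2 : H.Reachable v p.1)) hx
  have hNne : ∃ x, x ∈ N := by
    obtain ⟨x, y, hx, hy, hxy, hr⟩ := cross (hreach m hmM) hpU hmU
    refine ⟨y, ?_, hy, x, hx, hxy.symm⟩
    exact SimpleGraph.Reachable.trans (hUM hx) hxy.reachable
  have hcover : ∀ x ∈ M, x ∈ U ∨ x ∈ N := by
    by_contra hc
    push Not at hc
    obtain ⟨t, htM, htU, htN⟩ := hc
    obtain ⟨x, y, hx, hy, hxy, hr⟩ := cross (U := U ∪ N) (hreach t htM) (Or.inl hpU)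
      (by rintro (h | h); exacts [htU h, htN h])
    have hxM : x ∈ M := by
      rcases hx with hx | hx
      · exact hUM hx
      · exact hx.1
    have hyM : y ∈ M := SimpleGraph.Reachable.trans hxM hxy.reachable
    have hyU : y ∉ U := fun h => hy (Or.inl h)
    have hyN : y ∉ N := fun h => hy (Or.inr h)
    rcases hx with hx | hx
    · exact hyN ⟨hyM, hyU, x, hx, hxy.symm⟩
    · have hyno : ∀ a ∈ U, ¬ H.Adj y a := fun a ha h => hyN ⟨hyM, hyU, a, ha, h⟩
      have hqs : (x, y) ∈ s := ⟨hxy, hxM⟩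
      have hbig : insert x U ⊆ sup H (x, y) := by
        intro a ha
        rcases ha with ha | ha
        · rw [ha]; exact fst_mem_sup (x, y)
        · exact ⟨x, Or.inr ((Cls.refl (x, y)).step ⟨hxy, hNall x hx a ha, Or.inl ⟨rfl, hyno a ha⟩⟩)⟩
      have h1 : (sup H (x, y)).ncard ≤ U.ncard := hmax _ hqs
      have hUfin : U.Finite := hfin.subset hUM
      have h2 : (insert x U).ncard ≤ (sup H (x, y)).ncard :=
        Set.ncard_le_ncard hbig (hfin.subset (hsubM _ hqs))
      rw [Set.ncard_insert_of_notMem hx.2.1 hUfin] at h2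
      omega
  obtain ⟨n0, hn0⟩ := hNne
  have hpM : p.1 ∈ M := hps.2
  rcases hcover v (self_mem_comp H v) with hv | hv
  · have : ∀ x, coR H M v x → x ∈ U := by
      intro x hx
      unfold coR at hx
      induction hx with
      | refl => exact hv
      | @tail a b _ hab ih =>
        rcases hcover b hab.2.1 with h | h
        · exact h
        · exact absurd (hNall b h a ih).symm hab.2.2
    exact hn0.2.1 (this n0 (hco n0 hn0.1))
  · have : ∀ x, coR H M v x → x ∈ N := by
      intro x hx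
      unfold coR at hx
      induction hx with
      | refl => exact hv
      | @tail a b _ hab ih =>
        rcases hcover b hab.2.1 with h | h
        · exact absurd (hNall a ih b h) hab.2.2
        · exact h
    exact (this p.1 (hco p.1 hpM)).2.1 hpU

end Pool.Agent.Helper63.OC
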