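import Pool.Agent.Helper63.OC.Step

/-! # The on-line algorithm: iteration of the step, locality, number of colours -/

set_option autoImplicit false

namespace Pool.Agent.Helper63.OC

/-- the whole colour of `s` -/
noncomputable def fullCol : ℕ → SimpleGraph ℕ → ℕ → List (ℕ × ℕ × ℕ × ℕ × ℕ)
  | 0, _, _ => []
  | 1, _, _ => []
  | (k + 2), G, s => stepCol (k + 2) G s :: fullCol (k + 1) (mono G (stepCol (k + 2) G)) s

theorem fullCol_proper : ∀ (k : ℕ) (G : SimpleGraph ℕ) (r : ℕ → ℕ → Prop), IsComp G r →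
    G.CliqueFree (k + 1) → ∀ a b, G.Adj a b → fullCol k G a ≠ fullCol k G b
  | 0, G, r, _, hG, a, b, _ => by
    exfalso
    exact hG {a} ⟨by simp, by simp⟩
  | 1, G, r, _, hG, a, b, hab => by
    exfalso
    refine hG {a, b} ⟨?_, ?_⟩
    · intro x hx y hy hxy
      simp only [Finset.coe_insert, Finset.coe_singleton, Set.mem_insert_iff,
        Set.mem_singleton_iff] at hx hy
      rcases hx with rfl | rfl <;> rcases hy with rfl | rfl
      · exact absurd rfl hxy
      · exact hab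
      · exact hab.symm
      · exact absurd rfl hxy
    · exact Finset.card_pair hab.ne
  | (k + 2), G, r, hr, hG, a, b, hab => by
    intro heq
    rw [fullCol, fullCol, List.cons.injEq] at heq
    exact fullCol_proper (k + 1) _ _ (hr.mono _) (step_free hr (by omega) hG) a b
      ⟨hab, heq.1⟩ heq.2

theorem mono_pre {k s : ℕ} (G : SimpleGraph ℕ) :
    mono (pre G s) (stepCol k (pre G s)) = pre (mono G (stepCol k G)) s := by
  ext a b
  show (a ≤ s ∧ b ≤ s ∧ G.Adj a b) ∧ stepCol k (pre G s) a = stepCol k (pre G s) b ↔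
    a ≤ s ∧ b ≤ s ∧ (G.Adj a b ∧ stepCol k G a = stepCol k G b)
  constructor
  · rintro ⟨⟨h1, h2, h3⟩, h4⟩
    unfold stepCol at h4 ⊢
    rw [pre_pre h1, pre_pre h2] at h4
    exact ⟨h1, h2, h3, h4⟩
  · rintro ⟨h1, h2, h3, h4⟩
    refine ⟨⟨h1, h2, h3⟩, ?_⟩
    unfold stepCol at h4 ⊢
    rw [pre_pre h1, pre_pre h2]
    exact h4

theorem fullCol_pre : ∀ (k : ℕ) (G : SimpleGraph ℕ) (s t : ℕ), t ≤ s →
    fullCol k (pre G s) t = fullCol k G t
  | 0, _, _, _, _ => rfl
  | 1, _, _, _, _ => rfl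
  | (k + 2), G, s, t, h => by
    rw [fullCol, fullCol, mono_pre, fullCol_pre (k + 1) _ s t h]
    congr 1
    unfold stepCol
    rw [pre_pre h]

/-- the possible step colours -/
def T (K n : ℕ) : Finset (ℕ × ℕ × ℕ × ℕ × ℕ) :=
  Finset.range (Nat.log 2 n + 2) ×ˢ Finset.range (K + 1) ×ˢ Finset.range (K + 1) ×ˢ
    Finset.range (K + 1) ×ˢ Finset.range (K + 1)

theorem card_T (K n : ℕ) : (T K n).card = (Nat.log 2 n + 2) * (K + 1) ^ 4 := by
  unfold T
  simp only [Finset.card_product, Finset.card_range]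
  ring

theorem lv_le {G : SimpleGraph ℕ} {n s : ℕ} (hs : s < n) : lv s (pre G s) ≤ Nat.log 2 n := by
  unfold lv
  apply Nat.log_mono_right
  have h1 : comp (pre G s) s ⊆ ↑(Finset.range n) := by
    intro x hx
    have := comp_le le_rfl hx
    simp only [Finset.coe_range, Set.mem_Iio]
    omega
  have h2 := Set.ncard_le_ncard h1 (Finset.finite_toSet _)
  rwa [Set.ncard_coe_finset, Finset.card_range] at h2

theorem stepCol_mem {G : SimpleGraph ℕ} {K k n s : ℕ} (hk : 2 ≤ k) (hkK : k ≤ K)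
    (hG : G.CliqueFree (k + 1)) (hs : s < n) : stepCol k G s ∈ T K n := by
  have hlv := lv_le (G := G) hs
  unfold stepCol stepFun T
  simp only [Finset.mem_product, Finset.mem_range]
  split_ifs with h1 h2
  · have := (ii_spec hk hG h1).1
    refine ⟨by simp only; omega, by simp only; omega, by simp, by simp, by simp⟩
  · push Not at h2
    have h3 := (ii_spec hk hG h1).1
    have h4 := (bb_spec hk hG h1 h2).1
    have h5 : aa k s (pre G s) ≤ k := hgt_le (pre_free hG) _
    have h6 : ab k s (pre G s) ≤ k := hgt_le (pre_free hG) _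
    refine ⟨by simp only; omega, by simp only; omega, by simp only; omega, by simp only; omega,
      by simp only; omega⟩
  · refine ⟨by simp, by simp, by simp, by simp, by simp⟩

/-- the possible colours -/
def F (K n : ℕ) : ℕ → Finset (List (ℕ × ℕ × ℕ × ℕ × ℕ))
  | 0 => {[]}
  | (m + 1) => (T K n ×ˢ F K n m).image fun p => p.1 :: p.2

theorem card_F (K n m : ℕ) : (F K n m).card ≤ (T K n).card ^ m := by
  induction m with
  | zero => simp [F]
  | succ m ih =>
    rw [F]
    refine le_trans Finset.card_image_le ?_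
    rw [Finset.card_product, pow_succ, mul_comm]
    exact Nat.mul_le_mul_right _ ih

theorem fullCol_mem (K n s : ℕ) (hs : s < n) : ∀ (k : ℕ) (G : SimpleGraph ℕ)
    (r : ℕ → ℕ → Prop), IsComp G r → G.CliqueFree (k + 1) → k ≤ K →
      fullCol k G s ∈ F K n (k - 1)
  | 0, _, _, _, _, _ => by simp [fullCol, F]
  | 1, _, _, _, _, _ => by simp [fullCol, F]
  | (k + 2), G, r, hr, hG, hK => by
    rw [fullCol]
    show _ ∈ F K n (k + 1)
    rw [F, Finset.mem_image]
    refine ⟨(_, _), ?_, rfl⟩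
    rw [Finset.mem_product]
    refine ⟨stepCol_mem (by omega) hK hG hs, ?_⟩
    exact fullCol_mem K n s hs (k + 1) _ _ (hr.mono _) (step_free hr (by omega) hG) (by omega)

/-- a graph on `Fin n` seen as a graph on `ℕ` -/
def liftG {n : ℕ} (G : SimpleGraph (Fin n)) : SimpleGraph ℕ where
  Adj a b := ∃ (ha : a < n) (hb : b < n), G.Adj ⟨a, ha⟩ ⟨b, hb⟩
  symm := ⟨fun _ _ ⟨ha, hb, h⟩ => ⟨hb, ha, h.symm⟩⟩
  loopless := ⟨fun _ ⟨_, _, h⟩ => G.loopless.irrefl _ h⟩

theorem liftG_comap {n : ℕ} (G : SimpleGraph (Fin n)) (i : ℕ) (hi : i < n) :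
    liftG (SimpleGraph.comap (Fin.castLE (Nat.succ_le_of_lt hi)) G) = pre (liftG G) i := by
  ext a b
  constructor
  · rintro ⟨ha, hb, h⟩
    exact ⟨by omega, by omega, by omega, by omega, h⟩
  · rintro ⟨ha, hb, ha', hb', h⟩
    exact ⟨by omega, by omega, h⟩

theorem liftG_free {n k : ℕ} (G : SimpleGraph (Fin n)) (hk : 1 ≤ k) (hG : G.Colorable k) :
    (liftG G).CliqueFree (k + 1) := by
  obtain ⟨c⟩ := hG
  have : (liftG G).Colorable k := by
    refine ⟨SimpleGraph.Coloring.mk (fun a => if h : a < n then c ⟨a, h⟩ else ⟨0, hk⟩) ?_⟩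
    rintro a b ⟨ha, hb, h⟩
    simp only [ha, hb, dif_pos]
    exact c.valid h
  exact this.cliqueFree (by omega)

theorem liftG_comp {n : ℕ} (G : SimpleGraph (Fin n)) (r : Fin n → Fin n → Prop)
    (h1 : ∀ a, ¬ r a a) (h2 : ∀ a b c, r a b → r b c → r a c)
    (h3 : ∀ a b, G.Adj a b ↔ r a b ∨ r b a) :
    IsComp (liftG G) (fun a b => ∃ (ha : a < n) (hb : b < n), r ⟨a, ha⟩ ⟨b, hb⟩) := by
  refine ⟨?_, ?_, ?_⟩
  · rintro a ⟨ha, _, h⟩; exact h1 _ h
  · rintro a b c ⟨ha, hb, h⟩ ⟨_, hc, h'⟩; exact ⟨ha, hc, h2 _ _ _ h h'⟩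
  · intro a b
    constructor
    · rintro ⟨ha, hb, h⟩
      rcases (h3 _ _).1 h with h | h
      · exact Or.inl ⟨ha, hb, h⟩
      · exact Or.inr ⟨hb, ha, h⟩
    · rintro (⟨ha, hb, h⟩ | ⟨hb, ha, h⟩)
      · exact ⟨ha, hb, (h3 _ _).2 (Or.inl h)⟩
      · exact ⟨ha, hb, (h3 _ _).2 (Or.inr h)⟩

/-- the on-line algorithm for `k`-colourable comparability graphs -/
noncomputable def alg (k : ℕ) (m : ℕ) (H : SimpleGraph (Fin m)) : ℕ :=
  Encodable.encode (fullCol k (liftG H) (m - 1))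

theorem alg_eq {n k : ℕ} (G : SimpleGraph (Fin n)) (i : Fin n) :
    alg k (i.val + 1) (SimpleGraph.comap (Fin.castLE (Nat.succ_le_of_lt i.isLt)) G) =
      Encodable.encode (fullCol k (liftG G) i.val) := by
  unfold alg
  rw [liftG_comap G i.val i.isLt]
  congr 1
  exact fullCol_pre k _ _ _ le_rfl

theorem log_bound {n : ℕ} (hn : 2 ≤ n) : ((Nat.log 2 n + 2 : ℕ) : ℝ) ≤ 5 * Real.log n := by
  have h1 : (Nat.log 2 n : ℝ) ≤ Real.logb (2 : ℕ) n := Real.natLog_le_logb _ _
  have h2 : Real.logb (2 : ℕ) n = Real.log n / Real.log 2 := by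
    unfold Real.logb; norm_num
  have h3 : (0.6931471803 : ℝ) < Real.log 2 := Real.log_two_gt_d9
  have h4 : Real.log 2 ≤ Real.log n := Real.log_le_log (by norm_num) (by exact_mod_cast hn)
  rw [h2] at h1
  push_cast
  have h5 : Real.log n / Real.log 2 ≤ 2 * Real.log n := by
    rw [div_le_iff₀ (by linarith)]
    nlinarith
  linarith

theorem main {k : ℕ} (hk : 1 ≤ k) {n : ℕ} (hn : 2 ≤ n) (G : SimpleGraph (Fin n))
    (hG : G.Colorable k) (r : Fin n → Fin n → Prop)
    (h1 : ∀ a, ¬ r a a) (h2 : ∀ a b c, r a b → r b c → r a c)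
    (h3 : ∀ a b, G.Adj a b ↔ r a b ∨ r b a) :
    (∀ i j : Fin n, G.Adj i j →
      alg k (i.val + 1) (SimpleGraph.comap (Fin.castLE (Nat.succ_le_of_lt i.isLt)) G) ≠
      alg k (j.val + 1) (SimpleGraph.comap (Fin.castLE (Nat.succ_le_of_lt j.isLt)) G)) ∧
    (((Finset.univ.image (fun i : Fin n =>
      alg k (i.val + 1) (SimpleGraph.comap (Fin.castLE (Nat.succ_le_of_lt i.isLt)) G))).card : ℝ)
      ≤ (5 * (k + 1 : ℝ) ^ 4) ^ (k - 1) * (Real.log (n : ℝ)) ^ (k - 1)) := by
  have hfree := liftG_free G hk hG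
  have hcomp := liftG_comp G r h1 h2 h3
  constructor
  · intro i j hij
    rw [alg_eq, alg_eq]
    intro h
    have h' := Encodable.encode_injective h
    exact fullCol_proper k _ _ hcomp hfree i.val j.val ⟨i.isLt, j.isLt, hij⟩ h'
  · have hsub : (Finset.univ.image (fun i : Fin n =>
        alg k (i.val + 1) (SimpleGraph.comap (Fin.castLE (Nat.succ_le_of_lt i.isLt)) G))) ⊆
        (F k n (k - 1)).image Encodable.encode := by
      intro x hx
      rw [Finset.mem_image] at hx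
      obtain ⟨i, -, rfl⟩ := hx
      rw [alg_eq]
      exact Finset.mem_image_of_mem _ (fullCol_mem k n i.val i.isLt k _ _ hcomp hfree le_rfl)
    have h4 : (Finset.univ.image (fun i : Fin n =>
        alg k (i.val + 1) (SimpleGraph.comap (Fin.castLE (Nat.succ_le_of_lt i.isLt)) G))).card ≤
        ((Nat.log 2 n + 2) * (k + 1) ^ 4) ^ (k - 1) := by
      refine (Finset.card_le_card hsub).trans (Finset.card_image_le.trans ?_)
      rw [← card_T]
      exact card_F k n (k - 1)
    have h5 : ((Finset.univ.image (fun i : Fin n =>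
        alg k (i.val + 1) (SimpleGraph.comap (Fin.castLE (Nat.succ_le_of_lt i.isLt)) G))).card : ℝ)
        ≤ (((Nat.log 2 n + 2 : ℕ) : ℝ) * (k + 1 : ℝ) ^ 4) ^ (k - 1) := by
      have := (Nat.cast_le (α := ℝ)).2 h4
      push_cast at this ⊢
      exact this
    refine h5.trans ?_
    rw [← mul_pow]
    apply pow_le_pow_left₀ (by positivity)
    have h6 := log_bound hn
    have h7 : (0 : ℝ) ≤ (k + 1 : ℝ) ^ 4 := by positivity
    nlinarith

end Pool.Agent.Helper63.OC
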