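import Mathlib

/-! # Gallai implication classes: elementary facts -/

set_option autoImplicit false

namespace Pool.Agent.Helper63.OC

variable {V : Type*}

/-- One forcing step between ordered edges: they share the first (second) end and the other ends are
not adjacent. -/
def Gam (H : SimpleGraph V) (p q : V × V) : Prop :=
  H.Adj p.1 p.2 ∧ H.Adj q.1 q.2 ∧
    ((p.1 = q.1 ∧ ¬ H.Adj p.2 q.2) ∨ (p.2 = q.2 ∧ ¬ H.Adj p.1 q.1))

/-- same ordered implication class -/
def Cls (H : SimpleGraph V) (p q : V × V) : Prop := Relation.ReflTransGen (Gam H) p q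

/-- same unordered implication class -/
def Sam (H : SimpleGraph V) (p : V × V) (x y : V) : Prop := Cls H p (x, y) ∨ Cls H p (y, x)

/-- vertices of the class -/
def sup (H : SimpleGraph V) (p : V × V) : Set V := {x | ∃ y, Sam H p x y}

theorem Gam.symm {H : SimpleGraph V} {p q : V × V} (h : Gam H p q) : Gam H q p := by
  obtain ⟨h1, h2, h3 | h3⟩ := h
  · exact ⟨h2, h1, Or.inl ⟨h3.1.symm, fun h => h3.2 h.symm⟩⟩
  · exact ⟨h2, h1, Or.inr ⟨h3.1.symm, fun h => h3.2 h.symm⟩⟩

theorem Gam.rev {H : SimpleGraph V} {p q : V × V} (h : Gam H p q) : Gam H (p.2, p.1) (q.2, q.1) := by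
  obtain ⟨h1, h2, h3 | h3⟩ := h
  · exact ⟨h1.symm, h2.symm, Or.inr h3⟩
  · exact ⟨h1.symm, h2.symm, Or.inl h3⟩

theorem Cls.refl {H : SimpleGraph V} (p : V × V) : Cls H p p := Relation.ReflTransGen.refl

theorem Cls.trans {H : SimpleGraph V} {p q r : V × V} (h : Cls H p q) (h' : Cls H q r) :
    Cls H p r := Relation.ReflTransGen.trans h h'

theorem Cls.symm {H : SimpleGraph V} {p q : V × V} (h : Cls H p q) : Cls H q p := by
  unfold Cls at h ⊢
  induction h with
  | refl => exact Relation.ReflTransGen.refl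
  | tail _ h2 ih => exact Relation.ReflTransGen.trans (Relation.ReflTransGen.single h2.symm) ih

theorem Cls.rev {H : SimpleGraph V} {p q : V × V} (h : Cls H p q) :
    Cls H (p.2, p.1) (q.2, q.1) := by
  unfold Cls at h ⊢
  induction h with
  | refl => exact Relation.ReflTransGen.refl
  | tail _ h2 ih => exact Relation.ReflTransGen.tail ih h2.rev

theorem Cls.step {H : SimpleGraph V} {p q r : V × V} (h : Cls H p q) (h' : Gam H q r) :
    Cls H p r := Relation.ReflTransGen.tail h h'

theorem Cls.adj {H : SimpleGraph V} {p q : V × V} (h : Cls H p q) (hp : H.Adj p.1 p.2) :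
    H.Adj q.1 q.2 := by
  unfold Cls at h
  induction h with
  | refl => exact hp
  | tail _ h2 _ => exact h2.2.1

theorem Sam.adj {H : SimpleGraph V} {p : V × V} {x y : V} (h : Sam H p x y)
    (hp : H.Adj p.1 p.2) : H.Adj x y := by
  rcases h with h | h
  · exact h.adj hp
  · exact (h.adj hp).symm

theorem Sam.swap {H : SimpleGraph V} {p : V × V} {x y : V} (h : Sam H p x y) : Sam H p y x :=
  Or.symm h

/-- change of the base edge -/
theorem Sam.base {H : SimpleGraph V} {p : V × V} {x y a b : V} (h : Sam H p x y)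
    (h' : Sam H p a b) : Sam H (x, y) a b := by
  rcases h with h | h <;> rcases h' with h' | h'
  · exact Or.inl (h.symm.trans h')
  · exact Or.inr (h.symm.trans h')
  · exact Or.inr ((h.symm.trans h').rev)
  · exact Or.inl ((h.symm.trans h').rev)

theorem Sam.base' {H : SimpleGraph V} {p : V × V} {x y a b : V} (h : Sam H p x y)
    (h' : Sam H (x, y) a b) : Sam H p a b := by
  rcases h with h | h <;> rcases h' with h' | h'
  · exact Or.inl (h.trans h')
  · exact Or.inr (h.trans h')
  · exact Or.inr (h.trans h'.rev)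
  · exact Or.inl (h.trans h'.rev)

theorem sup_eq_of_sam {H : SimpleGraph V} {p : V × V} {x y : V} (h : Sam H p x y) :
    sup H (x, y) = sup H p := by
  ext a
  constructor
  · rintro ⟨b, hb⟩; exact ⟨b, h.base' hb⟩
  · rintro ⟨b, hb⟩; exact ⟨b, h.base hb⟩

/-- a forcing step in the unordered form -/
theorem Sam.left {H : SimpleGraph V} {p : V × V} {x y z : V} (h : Sam H p x y)
    (hxy : H.Adj x y) (hxz : H.Adj x z) (hyz : ¬ H.Adj y z) : Sam H p x z := by
  rcases h with h | h
  · exact Or.inl (h.step ⟨hxy, hxz, Or.inl ⟨rfl, hyz⟩⟩)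
  · exact Or.inr (h.step ⟨hxy.symm, hxz.symm, Or.inr ⟨rfl, hyz⟩⟩)

/-- Triangle lemma. -/
theorem triangle {H : SimpleGraph V} {a b c : V} (hab : H.Adj a b) (hac : H.Adj a c)
    (h1 : ¬ Cls H (b, c) (a, c)) (h2 : ¬ Cls H (b, c) (b, a)) {q : V × V}
    (hq : Cls H (b, c) q) : H.Adj a q.1 ∧ H.Adj a q.2 := by
  have key : H.Adj a q.1 ∧ H.Adj a q.2 ∧ ¬ Cls H (b, c) (a, q.2) ∧ ¬ Cls H (b, c) (q.1, a) := by
    have hq' := hq
    unfold Cls at hq'
    induction hq' with
    | refl => exact ⟨hab, hac, h1, h2⟩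
    | @tail q r hqq hs ih =>
      have hq1 : Cls H (b, c) q := hqq
      have hr1 : Cls H (b, c) r := hq1.step hs
      obtain ⟨i1, i2, i3, i4⟩ := ih hq1
      obtain ⟨q1, q2⟩ := q
      obtain ⟨r1, r2⟩ := r
      obtain ⟨s1, s2, s3 | s3⟩ := hs
      · obtain ⟨e, hn⟩ := s3
        simp only at *
        subst e
        have h3 : H.Adj a r2 := by
          by_contra hcon
          exact i4 (hr1.step ⟨s2, i1.symm, Or.inl ⟨rfl, fun h => hcon h.symm⟩⟩)
        refine ⟨i1, h3, ?_, i4⟩
        intro hc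
        exact i3 (hc.step ⟨h3, i2, Or.inl ⟨rfl, fun h => hn h.symm⟩⟩)
      · obtain ⟨e, hn⟩ := s3
        simp only at *
        subst e
        have h3 : H.Adj a r1 := by
          by_contra hcon
          exact i3 (hr1.step ⟨s2, i2, Or.inr ⟨rfl, fun h => hcon h.symm⟩⟩)
        refine ⟨h3, i2, i3, ?_⟩
        intro hc
        exact i4 (hc.step ⟨h3.symm, i1.symm, Or.inr ⟨rfl, fun h => hn h.symm⟩⟩)
  exact ⟨key.1, key.2.1⟩

theorem triangle_sup {H : SimpleGraph V} {p : V × V} {a b c : V} (hbc : Cls H p (b, c))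
    (hab : H.Adj a b) (hac : H.Adj a c) (ha : a ∈ sup H p) :
    Cls H p (a, c) ∨ Cls H p (b, a) := by
  by_contra hcon
  push Not at hcon
  have h1 : ¬ Cls H (b, c) (a, c) := fun h => hcon.1 (hbc.trans h)
  have h2 : ¬ Cls H (b, c) (b, a) := fun h => hcon.2 (hbc.trans h)
  obtain ⟨y, hy | hy⟩ := ha
  · have := triangle hab hac h1 h2 (hbc.symm.trans hy)
    exact H.loopless.irrefl _ this.1
  · have := triangle hab hac h1 h2 (hbc.symm.trans hy)
    exact H.loopless.irrefl _ this.2

theorem triangle_sam {H : SimpleGraph V} {p : V × V} {a b c : V} (hbc : Sam H p b c)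
    (hab : H.Adj a b) (hac : H.Adj a c) (ha : a ∈ sup H p) :
    Sam H p a c ∨ Sam H p a b := by
  rcases hbc with h | h
  · rcases triangle_sup h hab hac ha with h' | h'
    · exact Or.inl (Or.inl h')
    · exact Or.inr (Or.inr h')
  · rcases triangle_sup h hac hab ha with h' | h'
    · exact Or.inr (Or.inl h')
    · exact Or.inl (Or.inr h')

/-- the vertex set of a class is a module -/
theorem sup_module {H : SimpleGraph V} {p : V × V} (hp : H.Adj p.1 p.2) {x y : V}
    (hx : x ∉ sup H p) (hy : y ∈ sup H p) (hxy : H.Adj x y) {z : V} (hz : z ∈ sup H p) :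
    H.Adj x z := by
  obtain ⟨y', hyy⟩ := hy
  have hyy' : H.Adj y y' := hyy.adj hp
  have hsup : sup H (y, y') = sup H p := sup_eq_of_sam hyy
  rw [← hsup] at hx hz
  clear hsup hyy
  have hxy' : H.Adj x y' := by
    by_contra hcon
    exact hx ⟨y, Or.inr ((Cls.refl (y, y')).step
      ⟨hyy', hxy.symm, Or.inl ⟨rfl, fun h => hcon h.symm⟩⟩)⟩
  have key : ∀ q : V × V, Cls H (y, y') q → H.Adj x q.1 ∧ H.Adj x q.2 := by
    intro q hq
    have hq' := hq
    unfold Cls at hq'
    induction hq' with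
    | refl => exact ⟨hxy, hxy'⟩
    | @tail q r hqq hs ih =>
      have hq1 : Cls H (y, y') q := hqq
      have hr1 : Cls H (y, y') r := hq1.step hs
      obtain ⟨i1, i2⟩ := ih hq1
      obtain ⟨q1, q2⟩ := q
      obtain ⟨r1, r2⟩ := r
      obtain ⟨s1, s2, s3 | s3⟩ := hs
      · obtain ⟨e, hn⟩ := s3
        simp only at *
        subst e
        refine ⟨i1, ?_⟩
        by_contra hcon
        exact hx ⟨q1, Or.inr (hr1.step ⟨s2, i1.symm, Or.inl ⟨rfl, fun h => hcon h.symm⟩⟩)⟩
      · obtain ⟨e, hn⟩ := s3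
        simp only at *
        subst e
        refine ⟨?_, i2⟩
        by_contra hcon
        exact hx ⟨q2, Or.inl (hr1.step ⟨s2, i2, Or.inr ⟨rfl, fun h => hcon h.symm⟩⟩)⟩
  obtain ⟨z', hz' | hz'⟩ := hz
  · exact (key _ hz').1
  · exact (key _ hz').2

/-- two spanning classes coincide -/
theorem sup_unique {H : SimpleGraph V} {p q : V × V} (hp : H.Adj p.1 p.2) (hq : H.Adj q.1 q.2)
    (h : sup H p = sup H q) : Sam H p q.1 q.2 := by
  by_contra hcon
  have hno : ∀ x y, Sam H p x y → ¬ Sam H q x y := by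
    intro x y h1 h2
    refine hcon (h1.base' ?_)
    have : Sam H q q.1 q.2 := Or.inl (Cls.refl q)
    exact h2.base this
  have hv : p.1 ∈ sup H p := ⟨p.2, Or.inl (Cls.refl p)⟩
  have hv' : p.1 ∈ sup H q := h ▸ hv
  set v := p.1 with hvdef
  have hu : Sam H p v p.2 := Or.inl (Cls.refl p)
  set u := p.2 with hudef
  obtain ⟨w, hw⟩ := hv'
  have hvu : H.Adj v u := hp
  have hvw : H.Adj v w := hw.adj hq
  have huw : H.Adj u w := by
    by_contra hc
    exact hno v w (hu.left hvu hvw hc) hw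
  have hwsup : w ∈ sup H p := h ▸ ⟨v, hw.swap⟩
  have husup : u ∈ sup H q := h ▸ ⟨v, hu.swap⟩
  -- third vertex u, edge v w of q
  have h1 := triangle_sam hw hvu.symm huw husup
  have h2 := triangle_sam hu hvw.symm huw.symm hwsup
  have h1' : Sam H q u w := by
    rcases h1 with h1 | h1
    · exact h1
    · exact absurd h1.swap (hno v u hu)
  have h2' : Sam H p u w := by
    rcases h2 with h2 | h2
    · exact h2.swap
    · exact absurd hw (hno v w h2.swap)
  exact hno u w h2' h1'

/-- comparability graphs: `r` is a strict order whose comparability graph is `H` -/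
structure IsComp (H : SimpleGraph V) (r : V → V → Prop) : Prop where
  irrefl : ∀ a, ¬ r a a
  trans : ∀ a b c, r a b → r b c → r a c
  adj : ∀ a b, H.Adj a b ↔ (r a b ∨ r b a)

theorem IsComp.gam {H : SimpleGraph V} {r : V → V → Prop} (hr : IsComp H r) {p q : V × V}
    (h : Gam H p q) (hp : r p.1 p.2) : r q.1 q.2 := by
  obtain ⟨p1, p2⟩ := p
  obtain ⟨q1, q2⟩ := q
  obtain ⟨s1, s2, s3 | s3⟩ := h
  · obtain ⟨e, hn⟩ := s3
    simp only at *
    subst e
    rcases (hr.adj _ _).1 s2 with h | h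
    · exact h
    · exact absurd ((hr.adj _ _).2 (Or.inr (hr.trans _ _ _ h hp))) hn
  · obtain ⟨e, hn⟩ := s3
    simp only at *
    subst e
    rcases (hr.adj _ _).1 s2 with h | h
    · exact h
    · exact absurd ((hr.adj _ _).2 (Or.inl (hr.trans _ _ _ hp h))) hn

theorem IsComp.cls {H : SimpleGraph V} {r : V → V → Prop} (hr : IsComp H r) {p q : V × V}
    (h : Cls H p q) (hp : r p.1 p.2) : r q.1 q.2 := by
  unfold Cls at h
  induction h with
  | refl => exact hp
  | tail _ h2 ih => exact hr.gam h2 ih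

theorem IsComp.asymm {H : SimpleGraph V} {r : V → V → Prop} (hr : IsComp H r) {a b : V}
    (h : r a b) : ¬ r b a := fun h' => hr.irrefl a (hr.trans _ _ _ h h')

theorem IsComp.flip {H : SimpleGraph V} {r : V → V → Prop} (hr : IsComp H r) :
    IsComp H (fun a b => r b a) :=
  ⟨hr.irrefl, fun a b c h1 h2 => hr.trans _ _ _ h2 h1, fun a b => by rw [hr.adj]; exact Or.comm⟩

theorem cls_trans_aux {H : SimpleGraph V} {r : V → V → Prop} (hr : IsComp H r) {a b c : V}
    (h1 : r a b) (h2 : Cls H (a, b) (b, c)) : Cls H (a, b) (a, c) := by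
  have hbc : r b c := hr.cls h2 h1
  have hac : H.Adj a c := (hr.adj _ _).2 (Or.inl (hr.trans _ _ _ h1 hbc))
  have hab : H.Adj a b := (hr.adj _ _).2 (Or.inl h1)
  by_contra hcon
  have c1 : ¬ Cls H (b, c) (a, c) := fun h => hcon (h2.trans h)
  have c2 : ¬ Cls H (b, c) (b, a) := by
    intro h
    exact hr.asymm h1 (hr.cls h hbc)
  exact H.loopless.irrefl _ (triangle hab hac c1 c2 h2.symm).1

/-- ordered implication classes of comparability graphs are transitive -/
theorem IsComp.cls_trans {H : SimpleGraph V} {r : V → V → Prop} (hr : IsComp H r) {p : V × V}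
    (hp : H.Adj p.1 p.2) {a b c : V} (h1 : Cls H p (a, b)) (h2 : Cls H p (b, c)) :
    Cls H p (a, c) := by
  refine h1.trans ?_
  rcases (hr.adj _ _).1 (h1.adj hp) with h | h
  · exact cls_trans_aux hr h (h1.symm.trans h2)
  · exact cls_trans_aux hr.flip h (h1.symm.trans h2)

end Pool.Agent.Helper63.OC
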