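import Pool.Agent.Helper63.OC.Step

/-! # Lower bound: every on-line algorithm needs `c (log n)^(k-1)` colours on comparability graphs -/

set_option autoImplicit false

namespace Pool.Agent.Helper63.OC

/-- colour of the vertex `i` of the graph `G` on `ℕ` -/
def colOf (A : (m : ℕ) → SimpleGraph (Fin m) → ℕ) (G : SimpleGraph ℕ) (i : ℕ) : ℕ :=
  A (i + 1) (G.comap (Fin.val : Fin (i + 1) → ℕ))

theorem colOf_congr (A : (m : ℕ) → SimpleGraph (Fin m) → ℕ) {G G' : SimpleGraph ℕ} {m : ℕ}
    (h : ∀ i j, i < m → j < m → (G'.Adj i j ↔ G.Adj i j)) {i : ℕ} (hi : i < m) :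
    colOf A G' i = colOf A G i := by
  unfold colOf
  congr 1
  ext a b
  show G'.Adj _ _ ↔ G.Adj _ _
  exact h _ _ (by omega) (by omega)

/-- `ρ` is a strict order on `[a, b)` with comparability graph `G` and rank function `f < k` -/
structure Ord (G : SimpleGraph ℕ) (a b k : ℕ) (ρ : ℕ → ℕ → Prop) (f : ℕ → ℕ) : Prop where
  supp : ∀ x y, ρ x y → (a ≤ x ∧ x < b) ∧ a ≤ y ∧ y < b
  trans : ∀ x y z, ρ x y → ρ y z → ρ x z
  adj : ∀ x y, a ≤ x → x < b → a ≤ y → y < b → (G.Adj x y ↔ ρ x y ∨ ρ y x)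
  rk : ∀ x y, ρ x y → f x < f y
  lt : ∀ x, a ≤ x → x < b → f x < k

theorem Ord.congr {G G' : SimpleGraph ℕ} {a b k : ℕ} {ρ : ℕ → ℕ → Prop} {f : ℕ → ℕ}
    (h : Ord G a b k ρ f) (hG : ∀ i j, i < b → j < b → (G'.Adj i j ↔ G.Adj i j)) :
    Ord G' a b k ρ f :=
  ⟨h.supp, h.trans, fun x y h1 h2 h3 h4 => (hG x y h2 h4).trans (h.adj x y h1 h2 h3 h4), h.rk,
    h.lt⟩

theorem Ord.flip {G : SimpleGraph ℕ} {a b k : ℕ} {ρ : ℕ → ℕ → Prop} {f : ℕ → ℕ}
    (h : Ord G a b k ρ f) : Ord G a b k (fun x y => ρ y x) (fun x => k - 1 - f x) := by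
  refine ⟨fun x y hxy => ⟨(h.supp _ _ hxy).2, (h.supp _ _ hxy).1⟩,
    fun x y z h1 h2 => h.trans _ _ _ h2 h1, fun x y h1 h2 h3 h4 => ?_, fun x y hxy => ?_,
    fun x h1 h2 => ?_⟩
  · rw [h.adj x y h1 h2 h3 h4]; exact Or.comm
  · have h1 := h.rk _ _ hxy
    have h2 := h.lt _ (h.supp _ _ hxy).2.1 (h.supp _ _ hxy).2.2
    omega
  · have := h.lt _ h1 h2
    omega

theorem Ord.union {G : SimpleGraph ℕ} {a b c k : ℕ} {ρ τ : ℕ → ℕ → Prop} {f g : ℕ → ℕ}
    (hρ : Ord G a b k ρ f) (hτ : Ord G b c k τ g)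
    (hn : ∀ x y, a ≤ x → x < b → b ≤ y → y < c → ¬ G.Adj x y) (hab : a ≤ b) (hbc : b ≤ c) :
    Ord G a c k (fun x y => ρ x y ∨ τ x y) (fun x => if x < b then f x else g x) := by
  refine ⟨?_, ?_, ?_, ?_, ?_⟩
  · rintro x y (h | h)
    · have := hρ.supp _ _ h; omega
    · have := hτ.supp _ _ h; omega
  · rintro x y z (h | h) (h' | h')
    · exact Or.inl (hρ.trans _ _ _ h h')
    · have h1 := hρ.supp _ _ h; have h2 := hτ.supp _ _ h'; omega
    · have h1 := hτ.supp _ _ h; have h2 := hρ.supp _ _ h'; omega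
    · exact Or.inr (hτ.trans _ _ _ h h')
  · intro x y h1 h2 h3 h4
    have nρ : ∀ x y, (b ≤ x ∨ b ≤ y) → ¬ ρ x y := by
      intro x y h h'; have := hρ.supp _ _ h'; omega
    have nτ : ∀ x y, (x < b ∨ y < b) → ¬ τ x y := by
      intro x y h h'; have := hτ.supp _ _ h'; omega
    by_cases hx : x < b <;> by_cases hy : y < b
    · rw [hρ.adj x y h1 hx h3 hy]
      have := nτ x y (Or.inl hx); have := nτ y x (Or.inl hy)
      tauto
    · have e1 := hn x y h1 hx (by omega) h4
      have := nτ x y (Or.inl hx); have := nτ y x (Or.inr hx)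
      have := nρ x y (Or.inr (by omega)); have := nρ y x (Or.inl (by omega))
      tauto
    · have e1 := hn y x h3 hy (by omega) h2
      have e2 : ¬ G.Adj x y := fun h => e1 h.symm
      have := nτ x y (Or.inr hy); have := nτ y x (Or.inl hy)
      have := nρ x y (Or.inl (by omega)); have := nρ y x (Or.inr (by omega))
      tauto
    · rw [hτ.adj x y (by omega) h2 (by omega) h4]
      have := nρ x y (Or.inl (by omega)); have := nρ y x (Or.inl (by omega))
      tauto
  · rintro x y (h | h)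
    · have h1 := hρ.supp _ _ h
      rw [if_pos h1.1.2, if_pos h1.2.2]
      exact hρ.rk _ _ h
    · have h1 := hτ.supp _ _ h
      rw [if_neg (by omega), if_neg (by omega)]
      exact hτ.rk _ _ h
  · intro x h1 h2
    split_ifs with h
    · exact hρ.lt _ h1 h
    · exact hτ.lt _ (by omega) h2

theorem Ord.stack {G : SimpleGraph ℕ} {a b c k : ℕ} {ρ τ : ℕ → ℕ → Prop} {f g : ℕ → ℕ}
    (hρ : Ord G a b (k + 1) ρ f) (hτ : Ord G b c k τ g) (D : Finset ℕ)
    (hD : ∀ x ∈ D, a ≤ x ∧ x < b) (hmin : ∀ x ∈ D, ∀ y, ¬ ρ y x)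
    (hn : ∀ x y, a ≤ x → x < b → b ≤ y → y < c → (G.Adj x y ↔ x ∈ D)) (hab : a ≤ b)
    (hbc : b ≤ c) :
    Ord G a c (k + 1) (fun x y => ρ x y ∨ τ x y ∨ (x ∈ D ∧ b ≤ y ∧ y < c))
      (fun x => if x < b then (if x ∈ D then 0 else f x) else g x + 1) := by
  refine ⟨?_, ?_, ?_, ?_, ?_⟩
  · rintro x y (h | h | h)
    · have := hρ.supp _ _ h; omega
    · have := hτ.supp _ _ h; omega
    · have := hD _ h.1; omega
  · rintro x y z (h | h | h) (h' | h' | h')
    · exact Or.inl (hρ.trans _ _ _ h h')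
    · have h1 := hρ.supp _ _ h; have h2 := hτ.supp _ _ h'; omega
    · exact absurd h (hmin _ h'.1 _)
    · have h1 := hτ.supp _ _ h; have h2 := hρ.supp _ _ h'; omega
    · exact Or.inr (Or.inl (hτ.trans _ _ _ h h'))
    · have h1 := hτ.supp _ _ h; have h2 := hD _ h'.1; omega
    · have h1 := hρ.supp _ _ h'; omega
    · have h1 := hτ.supp _ _ h'
      exact Or.inr (Or.inr ⟨h.1, by omega, by omega⟩)
    · have h1 := hD _ h'.1; omega
  · intro x y h1 h2 h3 h4
    have nρ : ∀ x y, (b ≤ x ∨ b ≤ y) → ¬ ρ x y := by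
      intro x y h h'; have := hρ.supp _ _ h'; omega
    have nτ : ∀ x y, (x < b ∨ y < b) → ¬ τ x y := by
      intro x y h h'; have := hτ.supp _ _ h'; omega
    have nD : ∀ x, b ≤ x → x ∉ D := by
      intro x h h'; have := hD _ h'; omega
    by_cases hx : x < b <;> by_cases hy : y < b
    · rw [hρ.adj x y h1 hx h3 hy]
      have := nτ x y (Or.inl hx); have := nτ y x (Or.inl hy)
      have e3 : ¬ (b ≤ y) := by omega
      have e4 : ¬ (b ≤ x) := by omega
      tauto
    · have e1 := hn x y h1 hx (by omega) h4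
      have := nτ x y (Or.inl hx); have := nτ y x (Or.inr hx)
      have := nρ x y (Or.inr (by omega)); have := nρ y x (Or.inl (by omega))
      have := nD y (by omega)
      have e3 : b ≤ y := by omega
      tauto
    · have e1 := hn y x h3 hy (by omega) h2
      have e2 : G.Adj x y ↔ y ∈ D := ⟨fun h => e1.1 h.symm, fun h => (e1.2 h).symm⟩
      have := nτ x y (Or.inr hy); have := nτ y x (Or.inl hy)
      have := nρ x y (Or.inl (by omega)); have := nρ y x (Or.inr (by omega))
      have := nD x (by omega)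
      have e3 : b ≤ x := by omega
      tauto
    · rw [hτ.adj x y (by omega) h2 (by omega) h4]
      have := nρ x y (Or.inl (by omega)); have := nρ y x (Or.inl (by omega))
      have := nD x (by omega); have := nD y (by omega)
      tauto
  · rintro x y (h | h | h)
    · have h1 := hρ.supp _ _ h
      have h2 := hρ.rk _ _ h
      have h3 : y ∉ D := fun hy => hmin y hy x h
      rw [if_pos h1.1.2, if_pos h1.2.2, if_neg h3]
      split_ifs <;> omega
    · have h1 := hτ.supp _ _ h
      rw [if_neg (by omega), if_neg (by omega)]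
      have := hτ.rk _ _ h
      omega
    · have h1 := hD _ h.1
      have h2 : ¬ (y < b) := by omega
      rw [if_pos h1.2, if_pos h.1, if_neg h2]
      omega
  · intro x h1 h2
    split_ifs with h h'
    · omega
    · exact hρ.lt _ h1 h
    · have := hτ.lt x (by omega) h2
      omega

/-- the colouring is proper on the vertices `< m` -/
def Prop' (A : (m : ℕ) → SimpleGraph (Fin m) → ℕ) (G : SimpleGraph ℕ) (m : ℕ) : Prop :=
  ∀ i j, i < m → j < m → G.Adj i j → colOf A G i ≠ colOf A G j

/-- With at most `b` new vertices, all joined exactly to the set `X` of old vertices, the adversary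
can build a poset of height `≤ k` whose minimal elements carry at least `r` colours. -/
def Good (A : (m : ℕ) → SimpleGraph (Fin m) → ℕ) (k r b : ℕ) : Prop :=
  ∀ (m : ℕ) (G : SimpleGraph ℕ) (X : Finset ℕ), (∀ i j, G.Adj i j → i < m ∧ j < m) →
    (∀ x ∈ X, x < m) →
    ∃ (m' : ℕ) (G' : SimpleGraph ℕ) (ρ : ℕ → ℕ → Prop) (f : ℕ → ℕ) (D : Finset ℕ),
      m ≤ m' ∧ m' ≤ m + b ∧ (∀ i j, G'.Adj i j → i < m' ∧ j < m') ∧
      (∀ i j, i < m → j < m → (G'.Adj i j ↔ G.Adj i j)) ∧
      (∀ x y, x < m → m ≤ y → y < m' → (G'.Adj x y ↔ x ∈ X)) ∧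
      Ord G' m m' k ρ f ∧ (∀ x ∈ D, m ≤ x ∧ x < m') ∧ (∀ x ∈ D, ∀ y, ¬ ρ y x) ∧
      (Prop' A G' m' → r ≤ (D.image (colOf A G')).card)

theorem good_zero (A : (m : ℕ) → SimpleGraph (Fin m) → ℕ) (k : ℕ) : Good A k 0 0 := by
  intro m G X hG hX
  refine ⟨m, G, fun _ _ => False, fun _ => 0, ∅, le_rfl, le_rfl, hG, fun _ _ _ _ => Iff.rfl,
    fun x y _ h1 h2 => absurd h1 (by omega), ⟨fun _ _ h => h.elim, fun _ _ _ h => h.elim,
    fun x y h1 h2 => absurd h1 (by omega), fun _ _ h => h.elim, fun x h1 h2 => absurd h1 (by omega)⟩,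
    by simp, by simp, fun _ => by simp⟩

theorem good_one (A : (m : ℕ) → SimpleGraph (Fin m) → ℕ) : Good A 1 1 1 := by
  intro m G X hG hX
  let G' : SimpleGraph ℕ :=
    { Adj := fun i j => G.Adj i j ∨ (i ∈ X ∧ j = m) ∨ (j ∈ X ∧ i = m)
      symm := ⟨by
        rintro i j (h | h | h)
        · exact Or.inl h.symm
        · exact Or.inr (Or.inr h)
        · exact Or.inr (Or.inl h)⟩
      loopless := ⟨by
        rintro i (h | h | h)
        · exact G.loopless.irrefl _ h
        · have := hX _ h.1; omega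
        · have := hX _ h.1; omega⟩ }
  have hA : ∀ i j, G'.Adj i j ↔ (G.Adj i j ∨ (i ∈ X ∧ j = m) ∨ (j ∈ X ∧ i = m)) :=
    fun _ _ => Iff.rfl
  refine ⟨m + 1, G', fun _ _ => False, fun _ => 0, {m}, by omega, by omega, ?_, ?_, ?_, ?_,
    ?_, ?_, ?_⟩
  · intro i j h
    rw [hA] at h
    rcases h with h | h | h
    · have := hG _ _ h; omega
    · have := hX _ h.1; omega
    · have := hX _ h.1; omega
  · intro i j hi hj
    rw [hA]
    constructor
    · rintro (h | h | h)
      · exact h
      · omega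
      · omega
    · exact Or.inl
  · intro x y hx hy hy'
    rw [hA]
    constructor
    · rintro (h | h | h)
      · have := hG _ _ h; omega
      · exact h.1
      · omega
    · intro h
      exact Or.inr (Or.inl ⟨h, by omega⟩)
  · refine ⟨fun _ _ h => h.elim, fun _ _ _ h => h.elim, ?_, fun _ _ h => h.elim, fun _ _ _ => ?_⟩
    · intro x y h1 h2 h3 h4
      have : x = y := by omega
      subst this
      constructor
      · intro h; exact absurd h (G'.loopless.irrefl _)
      · rintro (h | h) <;> exact h.elim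
    · norm_num
  · intro x hx
    rw [Finset.mem_singleton] at hx
    omega
  · intro _ _ _ h; exact h
  · intro _
    simp

theorem good_step (A : (m : ℕ) → SimpleGraph (Fin m) → ℕ) {k r s b b' : ℕ}
    (h : Good A (k + 1) r b) (h' : Good A k s b') :
    Good A (k + 1) (r + (s + 1) / 2) (2 * b + b') := by
  intro m G X hG hX
  obtain ⟨m1, G1, ρ1, f1, D1, hm1, hb1, hs1, he1, hX1, ho1, hD1, hmin1, hc1⟩ := h m G X hG hX
  obtain ⟨m2, G2, ρ2, f2, D2, hm2, hb2, hs2, he2, hX2, ho2, hD2, hmin2, hc2⟩ :=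
    h m1 G1 X hs1 (fun x hx => by have := hX x hx; omega)
  obtain ⟨m3, G3, ρ3, f3, E, hm3, hb3, hs3, he3, hX3, ho3, hE, hmin3, hc3⟩ :=
    h' m2 G2 (X ∪ D2) hs2 (by
      intro x hx
      rw [Finset.mem_union] at hx
      rcases hx with hx | hx
      · have := hX x hx; omega
      · exact (hD2 x hx).2)
  -- agreement of the graphs
  have e32 : ∀ i j, i < m2 → j < m2 → (G3.Adj i j ↔ G2.Adj i j) := he3
  have e31 : ∀ i j, i < m1 → j < m1 → (G3.Adj i j ↔ G1.Adj i j) := fun i j hi hj =>
    (he3 i j (by omega) (by omega)).trans (he2 i j hi hj)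
  have e30 : ∀ i j, i < m → j < m → (G3.Adj i j ↔ G.Adj i j) := fun i j hi hj =>
    (e31 i j (by omega) (by omega)).trans (he1 i j hi hj)
  have o1 : Ord G3 m m1 (k + 1) ρ1 f1 := ho1.congr e31
  have o2 : Ord G3 m1 m2 (k + 1) ρ2 f2 := ho2.congr e32
  have hX3' : ∀ x y, x < m2 → m2 ≤ y → y < m3 → (G3.Adj x y ↔ x ∈ X ∨ x ∈ D2) := by
    intro x y h1 h2 h3
    rw [hX3 x y h1 h2 h3, Finset.mem_union]
  have hadjX : ∀ x y, x < m → m ≤ y → y < m3 → (G3.Adj x y ↔ x ∈ X) := by
    intro x y h1 h2 h3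
    by_cases hy1 : y < m1
    · rw [e31 x y (by omega) hy1]; exact hX1 x y h1 h2 hy1
    · by_cases hy2 : y < m2
      · rw [e32 x y (by omega) hy2]; exact hX2 x y (by omega) (by omega) hy2
      · rw [hX3' x y (by omega) (by omega) h3]
        constructor
        · rintro (h | h)
          · exact h
          · have := hD2 _ h; omega
        · exact Or.inl
  have hn1 : ∀ x y, m ≤ x → x < m1 → m1 ≤ y → y < m3 → ¬ G3.Adj x y := by
    intro x y h1 h2 h3 h4 hadj
    by_cases hy2 : y < m2
    · rw [e32 x y (by omega) hy2, hX2 x y h2 h3 hy2] at hadj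
      have := hX _ hadj; omega
    · rw [hX3' x y (by omega) (by omega) h4] at hadj
      rcases hadj with h | h
      · have := hX _ h; omega
      · have := hD2 _ h; omega
  have hn2 : ∀ x y, m1 ≤ x → x < m2 → m2 ≤ y → y < m3 → (G3.Adj x y ↔ x ∈ D2) := by
    intro x y h1 h2 h3 h4
    rw [hX3' x y h2 h3 h4]
    constructor
    · rintro (h | h)
      · have := hX _ h; omega
      · exact h
    · exact Or.inr
  have o23 := Ord.stack o2 ho3.flip D2 hD2 hmin2 hn2 hm2 hm3
  have oA := Ord.union o1 o23 hn1 hm1 (by omega)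
  have oB := Ord.union o1 o23.flip hn1 hm1 (by omega)
  -- colours
  have c1 : ∀ i, i < m1 → colOf A G3 i = colOf A G1 i := fun i hi => colOf_congr A e31 hi
  have c2 : ∀ i, i < m2 → colOf A G3 i = colOf A G2 i := fun i hi => colOf_congr A e32 hi
  by_cases hcount : r + (s + 1) / 2 ≤ ((D1 ∪ D2).image (colOf A G3)).card
  · refine ⟨m3, G3, _, _, D1 ∪ D2, by omega, by omega, hs3, e30, hadjX, oA, ?_, ?_,
      fun _ => hcount⟩
    · intro x hx
      rw [Finset.mem_union] at hx
      rcases hx with hx | hx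
      · have := hD1 x hx; omega
      · have := hD2 x hx; omega
    · intro x hx y hxy
      rw [Finset.mem_union] at hx
      rcases hx with hx | hx
      · have h1 := hD1 x hx
        rcases hxy with h | h | h | h
        · exact hmin1 x hx y h
        · have := o2.supp _ _ h; omega
        · have := ho3.supp _ _ h; omega
        · omega
      · have h1 := hD2 x hx
        rcases hxy with h | h | h | h
        · have := o1.supp _ _ h; omega
        · exact hmin2 x hx y h
        · have := ho3.supp _ _ h; omega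
        · omega
  · refine ⟨m3, G3, _, _, D1 ∪ E, by omega, by omega, hs3, e30, hadjX, oB, ?_, ?_, ?_⟩
    · intro x hx
      rw [Finset.mem_union] at hx
      rcases hx with hx | hx
      · have := hD1 x hx; omega
      · have := hE x hx; omega
    · intro x hx y hxy
      rw [Finset.mem_union] at hx
      rcases hx with hx | hx
      · have h1 := hD1 x hx
        rcases hxy with h | h | h | h
        · exact hmin1 x hx y h
        · have := o2.supp _ _ h; omega
        · have := ho3.supp _ _ h; omega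
        · have := hD2 x h.1; omega
      · have h1 := hE x hx
        rcases hxy with h | h | h | h
        · have := o1.supp _ _ h; omega
        · have := o2.supp _ _ h; omega
        · exact hmin3 x hx y h
        · have := hD2 x h.1; omega
    · intro hp
      have hp1 : Prop' A G1 m1 := by
        intro i j hi hj hadj
        rw [← c1 i hi, ← c1 j hj]
        exact hp i j (by omega) (by omega) ((e31 i j hi hj).2 hadj)
      have hp2 : Prop' A G2 m2 := by
        intro i j hi hj hadj
        rw [← c2 i hi, ← c2 j hj]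
        exact hp i j (by omega) (by omega) ((e32 i j hi hj).2 hadj)
      have r1 : r ≤ (D1.image (colOf A G3)).card := by
        have : D1.image (colOf A G3) = D1.image (colOf A G1) :=
          Finset.image_congr fun i hi => c1 i (hD1 i hi).2
        rw [this]; exact hc1 hp1
      have r2 : r ≤ (D2.image (colOf A G3)).card := by
        have : D2.image (colOf A G3) = D2.image (colOf A G2) :=
          Finset.image_congr fun i hi => c2 i (hD2 i hi).2
        rw [this]; exact hc2 hp2
      have r3 : s ≤ (E.image (colOf A G3)).card := hc3 hp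
      have hdisj : Disjoint (D2.image (colOf A G3)) (E.image (colOf A G3)) := by
        rw [Finset.disjoint_left]
        intro c hc hc'
        rw [Finset.mem_image] at hc hc'
        obtain ⟨x, hx, rfl⟩ := hc
        obtain ⟨y, hy, hxy⟩ := hc'
        have h1 := hD2 x hx
        have h2 := hE y hy
        exact hp x y (by omega) (by omega) ((hn2 x y h1.1 h1.2 h2.1 h2.2).2 hx) hxy.symm
      rw [Finset.image_union] at hcount ⊢
      set R1 := D1.image (colOf A G3)
      set R2 := D2.image (colOf A G3)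
      set S := E.image (colOf A G3)
      have h4 : (R2 ∪ S).card = R2.card + S.card := Finset.card_union_of_disjoint hdisj
      have h5 : (R1 ∪ R2).card + (R1 ∪ S).card =
          ((R1 ∪ R2) ∪ (R1 ∪ S)).card + ((R1 ∪ R2) ∩ (R1 ∪ S)).card :=
        (Finset.card_union_add_card_inter _ _).symm
      have h6 : (R2 ∪ S).card ≤ ((R1 ∪ R2) ∪ (R1 ∪ S)).card := by
        apply Finset.card_le_card
        intro x hx
        simp only [Finset.mem_union] at hx ⊢
        tauto
      have h7 : R1.card ≤ ((R1 ∪ R2) ∩ (R1 ∪ S)).card := by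
        apply Finset.card_le_card
        intro x hx
        simp only [Finset.mem_union, Finset.mem_inter]
        tauto
      omega

/-- number of colours forced on posets of height `k` -/
def Nc (l : ℕ) : ℕ → ℕ
  | 0 => 1
  | (k + 1) => l * ((Nc l k + 1) / 2)

theorem good_rounds (A : (m : ℕ) → SimpleGraph (Fin m) → ℕ) {k s b : ℕ} (h : Good A k s b) :
    ∀ t : ℕ, Good A (k + 1) (t * ((s + 1) / 2)) ((2 ^ t - 1) * b)
  | 0 => by simpa using good_zero A (k + 1)
  | (t + 1) => by
    have h1 := good_step A (good_rounds A h t) h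
    have e1 : t * ((s + 1) / 2) + (s + 1) / 2 = (t + 1) * ((s + 1) / 2) := by ring
    have e2 : 2 * ((2 ^ t - 1) * b) + b = (2 ^ (t + 1) - 1) * b := by
      have h2 : 1 ≤ 2 ^ t := Nat.one_le_two_pow
      obtain ⟨u, hu⟩ : ∃ u, 2 ^ t = u + 1 := ⟨2 ^ t - 1, by omega⟩
      have h3 : 2 ^ (t + 1) = 2 * u + 2 := by rw [pow_succ, hu]; ring
      rw [hu, h3]
      have h4 : 2 * u + 2 - 1 = 2 * u + 1 := by omega
      rw [h4, Nat.add_sub_cancel]
      ring
    rw [e1, e2] at h1
    exact h1

theorem good_all (A : (m : ℕ) → SimpleGraph (Fin m) → ℕ) (l : ℕ) :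
    ∀ k : ℕ, Good A (k + 1) (Nc l k) ((2 ^ l - 1) ^ k)
  | 0 => by simpa [Nc] using good_one A
  | (k + 1) => by
    have h := good_rounds A (good_all A l k) l
    rw [Nc, pow_succ, mul_comm ((2 ^ l - 1) ^ k)]
    exact h

theorem Nc_ge (l : ℕ) : ∀ k : ℕ, l ^ k ≤ 2 ^ k * Nc l k
  | 0 => by simp [Nc]
  | (k + 1) => by
    have ih := Nc_ge l k
    rw [Nc]
    have h1 : Nc l k ≤ 2 * ((Nc l k + 1) / 2) := by omega
    calc l ^ (k + 1) = l ^ k * l := pow_succ _ _
      _ ≤ (2 ^ k * Nc l k) * l := Nat.mul_le_mul_right _ ih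
      _ ≤ (2 ^ k * (2 * ((Nc l k + 1) / 2))) * l :=
          Nat.mul_le_mul_right _ (Nat.mul_le_mul_left _ h1)
      _ = 2 ^ (k + 1) * (l * ((Nc l k + 1) / 2)) := by ring

end Pool.Agent.Helper63.OC
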