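import Pool.Agent.Helper63.OC.Lower

/-! # Lower bound: final form -/

set_option autoImplicit false

namespace Pool.Agent.Helper63.OC

theorem log_le_L {n : ℕ} (hn : 2 ≤ n) : Real.log n ≤ (Nat.log 2 n : ℝ) + 1 := by
  have h1 : n < 2 ^ (Nat.log 2 n + 1) := Nat.lt_pow_succ_log_self (by norm_num) _
  have h2 : (n : ℝ) ≤ (2 : ℝ) ^ (Nat.log 2 n + 1) := by exact_mod_cast h1.le
  have h3 : Real.log n ≤ Real.log ((2 : ℝ) ^ (Nat.log 2 n + 1)) :=
    Real.log_le_log (by exact_mod_cast (by omega : 0 < n)) h2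
  rw [Real.log_pow] at h3
  have h4 : Real.log 2 ≤ 1 := by
    have := Real.log_two_lt_d9
    linarith
  push_cast at h3
  have h5 : (0 : ℝ) ≤ (Nat.log 2 n : ℝ) + 1 := by positivity
  nlinarith

theorem lower {k : ℕ} (hk : 1 ≤ k) {n : ℕ} (hn : 2 ≤ n)
    (A : (m : ℕ) → SimpleGraph (Fin m) → ℕ) :
    ∃ G : SimpleGraph (Fin n), G.Colorable k ∧
      (∃ r : Fin n → Fin n → Prop, (∀ a, ¬ r a a) ∧ (∀ a b c, r a b → r b c → r a c) ∧
        ∀ a b, G.Adj a b ↔ r a b ∨ r b a) ∧
      ((∀ i j : Fin n, G.Adj i j →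
          A (i.val + 1) (SimpleGraph.comap (Fin.castLE (Nat.succ_le_of_lt i.isLt)) G) ≠
          A (j.val + 1) (SimpleGraph.comap (Fin.castLE (Nat.succ_le_of_lt j.isLt)) G)) →
        (Real.log n / (4 * k)) ^ (k - 1) ≤
        (((Finset.univ.image (fun i : Fin n =>
          A (i.val + 1) (SimpleGraph.comap (Fin.castLE (Nat.succ_le_of_lt i.isLt)) G))).card :
            ℝ))) := by
  obtain ⟨k', rfl⟩ : ∃ k', k = k' + 1 := ⟨k - 1, by omega⟩
  set l := Nat.log 2 n / k' with hl
  obtain ⟨m', G', ρ, f, D, -, hm', hs, -, -, ho, hD, -, hc⟩ :=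
    good_all A l k' 0 ⊥ ∅ (fun i j h => h.elim) (fun x hx => absurd hx (by simp))
  have hB : (2 ^ l - 1) ^ k' ≤ n := by
    calc (2 ^ l - 1) ^ k' ≤ (2 ^ l) ^ k' := Nat.pow_le_pow_left (Nat.sub_le _ _) _
      _ = 2 ^ (l * k') := (pow_mul _ _ _).symm
      _ ≤ 2 ^ (Nat.log 2 n) := Nat.pow_le_pow_right (by norm_num) (Nat.div_mul_le_self _ _)
      _ ≤ n := Nat.pow_log_le_self 2 (by omega)
  have hm : m' ≤ n := by omega
  let G : SimpleGraph (Fin n) := G'.comap (Fin.val : Fin n → ℕ)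
  have hcol : ∀ i : Fin n,
      A (i.val + 1) (SimpleGraph.comap (Fin.castLE (Nat.succ_le_of_lt i.isLt)) G) =
        colOf A G' i.val := fun i => rfl
  refine ⟨G, ?_, ⟨fun i j => ρ i.val j.val, ?_, ?_, ?_⟩, ?_⟩
  · refine ⟨SimpleGraph.Coloring.mk
      (fun i => if h : i.val < m' then ⟨f i.val, ho.lt _ (Nat.zero_le _) h⟩ else ⟨0, by omega⟩) ?_⟩
    intro i j hij
    have hij' : G'.Adj i.val j.val := hij
    have h1 := hs _ _ hij'
    simp only [h1.1, h1.2, dif_pos]
    intro heq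
    rw [Fin.mk.injEq] at heq
    rcases (ho.adj _ _ (Nat.zero_le _) h1.1 (Nat.zero_le _) h1.2).1 hij' with h | h
    · have := ho.rk _ _ h; omega
    · have := ho.rk _ _ h; omega
  · intro a h
    have := ho.rk _ _ h; omega
  · intro a b c h1 h2
    exact ho.trans _ _ _ h1 h2
  · intro a b
    show G'.Adj a.val b.val ↔ _
    constructor
    · intro h
      have h1 := hs _ _ h
      exact (ho.adj _ _ (Nat.zero_le _) h1.1 (Nat.zero_le _) h1.2).1 h
    · intro h
      have h1 : a.val < m' ∧ b.val < m' := by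
        rcases h with h | h
        · have := ho.supp _ _ h; omega
        · have := ho.supp _ _ h; omega
      exact (ho.adj _ _ (Nat.zero_le _) h1.1 (Nat.zero_le _) h1.2).2 h
  · intro hp
    have hpG' : Prop' A G' m' := by
      intro i j hi hj hadj
      exact hp ⟨i, by omega⟩ ⟨j, by omega⟩ hadj
    have hge : Nc l k' ≤ (Finset.univ.image (fun i : Fin n =>
        A (i.val + 1) (SimpleGraph.comap (Fin.castLE (Nat.succ_le_of_lt i.isLt)) G))).card := by
      refine (hc hpG').trans (Finset.card_le_card ?_)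
      intro c hc'
      rw [Finset.mem_image] at hc' ⊢
      obtain ⟨x, hx, rfl⟩ := hc'
      have := hD x hx
      exact ⟨⟨x, by omega⟩, Finset.mem_univ _, rfl⟩
    have hone : 1 ≤ (Finset.univ.image (fun i : Fin n =>
        A (i.val + 1) (SimpleGraph.comap (Fin.castLE (Nat.succ_le_of_lt i.isLt)) G))).card := by
      apply Finset.card_pos.2
      exact ⟨_, Finset.mem_image_of_mem _ (Finset.mem_univ (⟨0, by omega⟩ : Fin n))⟩
    set N := (Finset.univ.image (fun i : Fin n =>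
        A (i.val + 1) (SimpleGraph.comap (Fin.castLE (Nat.succ_le_of_lt i.isLt)) G))).card
    have hlog := log_le_L hn
    have hlog0 : 0 ≤ Real.log n := Real.log_nonneg (by exact_mod_cast (by omega : 1 ≤ n))
    rw [Nat.add_sub_cancel]
    push_cast
    have hpos : (0 : ℝ) < 4 * ((k' : ℝ) + 1) := by positivity
    rcases Nat.eq_zero_or_pos k' with hk0 | hk0
    · rw [hk0, pow_zero]; exact_mod_cast hone
    by_cases hl0 : l = 0
    · have h1 : Nat.log 2 n < k' := by
        rw [hl] at hl0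
        rcases Nat.div_eq_zero_iff.1 hl0 with h | h
        · omega
        · exact h
      have h2 : (Nat.log 2 n : ℝ) + 1 ≤ k' := by exact_mod_cast h1
      have h3 : Real.log n / (4 * ((k' : ℝ) + 1)) ≤ 1 := by
        rw [div_le_one hpos]; linarith
      calc (Real.log n / (4 * ((k' : ℝ) + 1))) ^ k' ≤ 1 :=
            pow_le_one₀ (div_nonneg hlog0 hpos.le) h3
        _ ≤ (N : ℝ) := by exact_mod_cast hone
    · have h1 : Nat.log 2 n + 1 ≤ k' * (l + 1) := by
        have := Nat.lt_mul_div_succ (Nat.log 2 n) hk0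
        rw [← hl] at this
        exact this
      have h2 : (Nat.log 2 n : ℝ) + 1 ≤ k' * (l + 1) := by exact_mod_cast h1
      have h3 : (1 : ℝ) ≤ l := by exact_mod_cast Nat.one_le_iff_ne_zero.2 hl0
      have hk1 : (0 : ℝ) ≤ k' := by positivity
      have h4 : Real.log n / (4 * ((k' : ℝ) + 1)) ≤ l / 2 := by
        rw [div_le_iff₀ hpos]
        nlinarith
      have h5 := Nc_ge l k'
      have h6 : (l : ℝ) ^ k' ≤ 2 ^ k' * (Nc l k' : ℝ) := by exact_mod_cast h5
      calc (Real.log n / (4 * ((k' : ℝ) + 1))) ^ k' ≤ ((l : ℝ) / 2) ^ k' :=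
            pow_le_pow_left₀ (div_nonneg hlog0 hpos.le) h4 _
        _ = (l : ℝ) ^ k' / 2 ^ k' := div_pow _ _ _
        _ ≤ (Nc l k' : ℝ) := by
            rw [div_le_iff₀ (by positivity)]
            linarith
        _ ≤ (N : ℝ) := by exact_mod_cast hge

end Pool.Agent.Helper63.OC
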