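import Pool.Agent.Helper63.OC.Comp

/-! # One step of the on-line algorithm: from cliques of size `k` to cliques of size `k - 1` -/

set_option autoImplicit false

namespace Pool.Agent.Helper63.OC

/-- the graph formed by the vertices `≤ s` -/
def pre (G : SimpleGraph ℕ) (s : ℕ) : SimpleGraph ℕ where
  Adj a b := a ≤ s ∧ b ≤ s ∧ G.Adj a b
  symm := ⟨fun _ _ h => ⟨h.2.1, h.1, h.2.2.symm⟩⟩
  loopless := ⟨fun _ h => G.loopless.irrefl _ h.2.2⟩

theorem pre_adj {G : SimpleGraph ℕ} {s a b : ℕ} :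
    (pre G s).Adj a b ↔ a ≤ s ∧ b ≤ s ∧ G.Adj a b := Iff.rfl

theorem pre_pre {G : SimpleGraph ℕ} {s t : ℕ} (h : t ≤ s) : pre (pre G s) t = pre G t := by
  ext a b
  simp only [pre_adj]
  constructor
  · rintro ⟨h1, h2, _, _, h5⟩; exact ⟨h1, h2, h5⟩
  · rintro ⟨h1, h2, h3⟩; exact ⟨h1, h2, h1.trans h, h2.trans h, h3⟩

theorem pre_mono {G : SimpleGraph ℕ} {s t a b : ℕ} (h : t ≤ s) (hab : (pre G t).Adj a b) :
    (pre G s).Adj a b := ⟨hab.1.trans h, hab.2.1.trans h, hab.2.2⟩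

theorem pre_down {G : SimpleGraph ℕ} {s t a b : ℕ} (ha : a ≤ t) (hb : b ≤ t)
    (hab : (pre G s).Adj a b) : (pre G t).Adj a b := ⟨ha, hb, hab.2.2⟩

theorem pre_free {G : SimpleGraph ℕ} {s k : ℕ} (h : G.CliqueFree k) : (pre G s).CliqueFree k := by
  refine SimpleGraph.CliqueFree.anti ?_ h
  intro a b hab
  exact hab.2.2

theorem gam_pre {G : SimpleGraph ℕ} {s t : ℕ} (h : t ≤ s) {p q : ℕ × ℕ}
    (hg : Gam (pre G t) p q) : Gam (pre G s) p q := by
  obtain ⟨h1, h2, h3⟩ := hg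
  refine ⟨pre_mono h h1, pre_mono h h2, ?_⟩
  rcases h3 with ⟨e, hn⟩ | ⟨e, hn⟩
  · exact Or.inl ⟨e, fun hc => hn (pre_down h1.2.1 h2.2.1 hc)⟩
  · exact Or.inr ⟨e, fun hc => hn (pre_down h1.1 h2.1 hc)⟩

theorem cls_pre {G : SimpleGraph ℕ} {s t : ℕ} (h : t ≤ s) {p q : ℕ × ℕ}
    (hc : Cls (pre G t) p q) : Cls (pre G s) p q :=
  Relation.ReflTransGen.mono (fun _ _ => gam_pre h) _ _ hc

theorem reach_pre {G : SimpleGraph ℕ} {s t a b : ℕ} (h : t ≤ s) (hr : (pre G t).Reachable a b) :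
    (pre G s).Reachable a b :=
  hr.mono (fun _ _ => pre_mono h)

theorem reach_le {G : SimpleGraph ℕ} {s a b : ℕ} (hr : (pre G s).Reachable a b) (ha : a ≤ s) :
    b ≤ s := by
  obtain ⟨p⟩ := hr
  induction p with
  | nil => exact ha
  | cons h _ ih => exact ih h.2.1

theorem comp_sub {G : SimpleGraph ℕ} {s t v : ℕ} (h : t ≤ s) :
    comp (pre G t) v ⊆ comp (pre G s) v := fun _ hx => reach_pre h hx

theorem comp_le {G : SimpleGraph ℕ} {s v x : ℕ} (hv : v ≤ s) (hx : x ∈ comp (pre G s) v) :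
    x ≤ s := reach_le hx hv

theorem comp_fin {G : SimpleGraph ℕ} {s v : ℕ} (hv : v ≤ s) : (comp (pre G s) v).Finite :=
  (Set.finite_Iic s).subset fun _ hx => comp_le hv hx

theorem coR_symm {H : SimpleGraph ℕ} {M : Set ℕ} {a b : ℕ} (h : coR H M a b) : coR H M b a := by
  unfold coR at h ⊢
  induction h with
  | refl => exact Relation.ReflTransGen.refl
  | tail _ h2 ih =>
    exact Relation.ReflTransGen.trans (Relation.ReflTransGen.single
      ⟨h2.2.1, h2.1, fun h => h2.2.2 h.symm⟩) ih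

theorem coR_pre {G : SimpleGraph ℕ} {u v : ℕ} {M N : Set ℕ} (hM : ∀ x ∈ M, x ≤ u)
    (hMN : M ⊆ N) {a b : ℕ} (hc : coR (pre G u) M a b) : coR (pre G v) N a b :=
  Relation.ReflTransGen.mono (fun x y hxy => ⟨hMN hxy.1, hMN hxy.2.1,
    fun hadj => hxy.2.2 (pre_down (hM _ hxy.1) (hM _ hxy.2.1) hadj)⟩) _ _ hc

/-- candidates for the anchor at time `t` -/
def Zs (H : SimpleGraph ℕ) (k : ℕ) (M : Set ℕ) (j t : ℕ) (z : ℕ → ℕ) : Prop :=
  CM (pre H t) k z ∧ z 0 ∈ M ∧ 2 ^ j ≤ (comp (pre H t) (z 0)).ncard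

/-- the first time with a candidate -/
noncomputable def tz (H : SimpleGraph ℕ) (k : ℕ) (M : Set ℕ) (j : ℕ) : ℕ :=
  sInf {t | ∃ z, Zs H k M j t z}

/-- the anchor -/
noncomputable def anc (H : SimpleGraph ℕ) (k : ℕ) (M : Set ℕ) (j : ℕ) : ℕ → ℕ :=
  Classical.epsilon (Zs H k M j (tz H k M j))

/-- level of the component -/
noncomputable def lv (s : ℕ) (H : SimpleGraph ℕ) : ℕ := Nat.log 2 (comp H s).ncard

/-- anchor used for `s` -/
noncomputable def zz (k s : ℕ) (H : SimpleGraph ℕ) : ℕ → ℕ := anc H k (comp H s) (lv s H)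

/-- first anchor vertex in the co-component of `s` -/
noncomputable def ii (k s : ℕ) (H : SimpleGraph ℕ) : ℕ :=
  sInf {i | coR H (comp H s) s (zz k s H i)}

/-- first anchor edge in the spanning class -/
noncomputable def bb (k s : ℕ) (H : SimpleGraph ℕ) : ℕ :=
  sInf {b | H.Adj (zz k s H 0) (zz k s H b) ∧ sup H (zz k s H 0, zz k s H b) = comp H s}

/-- largest clique of vertices with property `P` -/
noncomputable def hgt (H : SimpleGraph ℕ) (P : ℕ → Prop) : ℕ :=
  sSup {m | ∃ Q : Finset ℕ, H.IsNClique m Q ∧ ∀ x ∈ Q, P x}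

/-- clique number below `s` in the spanning class -/
noncomputable def aa (k s : ℕ) (H : SimpleGraph ℕ) : ℕ :=
  hgt H (fun x => Cls H (zz k s H 0, zz k s H (bb k s H)) (x, s))

/-- clique number above `s` in the spanning class -/
noncomputable def ab (k s : ℕ) (H : SimpleGraph ℕ) : ℕ :=
  hgt H (fun x => Cls H (zz k s H 0, zz k s H (bb k s H)) (s, x))

/-- `s` lies in a `k`-clique of `H` -/
def inCl (k s : ℕ) (H : SimpleGraph ℕ) : Prop := ∃ Q : Finset ℕ, H.IsNClique k Q ∧ s ∈ Q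

open Classical in
/-- the colour given to `s` in one step, as a function of the graph known at time `s` -/
noncomputable def stepFun (k s : ℕ) (H : SimpleGraph ℕ) : ℕ × ℕ × ℕ × ℕ × ℕ :=
  if inCl k s H then
    if ∃ x ∈ comp H s, ¬ coR H (comp H s) s x then (lv s H + 1, ii k s H, 0, 0, 0)
    else (lv s H + 1, ii k s H, bb k s H + 1, aa k s H, ab k s H)
  else (0, 0, 0, 0, 0)

/-- the step colouring of `G` -/
noncomputable def stepCol (k : ℕ) (G : SimpleGraph ℕ) (s : ℕ) : ℕ × ℕ × ℕ × ℕ × ℕ :=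
  stepFun k s (pre G s)

theorem hgt_le {H : SimpleGraph ℕ} {k : ℕ} (h : H.CliqueFree (k + 1)) (P : ℕ → Prop) :
    hgt H P ≤ k := by
  apply csSup_le (show {m | ∃ Q : Finset ℕ, H.IsNClique m Q ∧ ∀ x ∈ Q, P x}.Nonempty from
    ⟨0, ∅, by simp, by simp⟩)
  rintro m ⟨Q, hQ, -⟩
  by_contra hcon
  exact (h.mono (by omega : k + 1 ≤ m)) Q hQ

theorem hgt_mem {H : SimpleGraph ℕ} {k : ℕ} (h : H.CliqueFree (k + 1)) (P : ℕ → Prop) :
    ∃ Q : Finset ℕ, H.IsNClique (hgt H P) Q ∧ ∀ x ∈ Q, P x := by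
  have h1 : BddAbove {m | ∃ Q : Finset ℕ, H.IsNClique m Q ∧ ∀ x ∈ Q, P x} := by
    refine ⟨k, ?_⟩
    rintro m ⟨Q, hQ, -⟩
    by_contra hcon
    exact (h.mono (by omega : k + 1 ≤ m)) Q hQ
  exact Nat.sSup_mem (s := {m | ∃ Q : Finset ℕ, H.IsNClique m Q ∧ ∀ x ∈ Q, P x})
    ⟨0, ∅, by simp, by simp⟩ h1

theorem le_hgt {H : SimpleGraph ℕ} {k : ℕ} (h : H.CliqueFree (k + 1)) {P : ℕ → Prop} {m : ℕ}
    {Q : Finset ℕ} (hQ : H.IsNClique m Q) (hP : ∀ x ∈ Q, P x) : m ≤ hgt H P := by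
  apply le_csSup
  · refine ⟨k, ?_⟩
    rintro m ⟨Q, hQ, -⟩
    by_contra hcon
    exact (h.mono (by omega : k + 1 ≤ m)) Q hQ
  · exact ⟨Q, hQ, hP⟩

theorem anc_spec {G : SimpleGraph ℕ} {k s : ℕ} (hk : 2 ≤ k) (hs : inCl k s (pre G s)) :
    Zs (pre G s) k (comp (pre G s) s) (lv s (pre G s))
      (tz (pre G s) k (comp (pre G s) s) (lv s (pre G s))) (zz k s (pre G s)) ∧
    tz (pre G s) k (comp (pre G s) s) (lv s (pre G s)) ≤ s := by
  obtain ⟨Q, hQ, hsQ⟩ := hs
  obtain ⟨z, hz, hzQ⟩ := exists_CM hQ (by omega : 0 < k)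
  have h0 : z 0 ∈ comp (pre G s) s := by
    by_cases h : z 0 = s
    · rw [h]; exact self_mem_comp _ _
    · have : (pre G s).Adj s (z 0) := hQ.isClique hsQ (hzQ 0 (by omega)) (Ne.symm h)
      exact this.reachable
  have hne : (comp (pre G s) s).ncard ≠ 0 := by
    rw [Ne, Set.ncard_eq_zero (comp_fin le_rfl)]
    exact Set.Nonempty.ne_empty ⟨s, self_mem_comp _ _⟩
  have hZ : Zs (pre G s) k (comp (pre G s) s) (lv s (pre G s)) s z := by
    refine ⟨?_, h0, ?_⟩
    · rw [pre_pre le_rfl]; exact hz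
    · rw [pre_pre le_rfl, comp_eq h0]
      exact Nat.pow_log_le_self 2 hne
  have hmem : ∃ z', Zs (pre G s) k (comp (pre G s) s) (lv s (pre G s))
      (tz (pre G s) k (comp (pre G s) s) (lv s (pre G s))) z' :=
    Nat.sInf_mem (s := {t | ∃ z, Zs (pre G s) k (comp (pre G s) s) (lv s (pre G s)) t z})
      ⟨s, z, hZ⟩
  exact ⟨Classical.epsilon_spec hmem, Nat.sInf_le ⟨z, hZ⟩⟩

theorem zz_CM {G : SimpleGraph ℕ} {k s : ℕ} (hk : 2 ≤ k) (hs : inCl k s (pre G s)) :
    CM (pre G s) k (zz k s (pre G s)) ∧ ∀ i < k, zz k s (pre G s) i ∈ comp (pre G s) s := by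
  obtain ⟨⟨h1, h2, -⟩, -⟩ := anc_spec hk hs
  have h3 : CM (pre G s) k (zz k s (pre G s)) := fun i hi j hj hij => (h1 i hi j hj hij).2.2
  refine ⟨h3, fun i hi => ?_⟩
  by_cases h : i = 0
  · rw [h]; exact h2
  · exact SimpleGraph.Reachable.trans h2 (h3 0 (by omega) i hi (Ne.symm h)).reachable

theorem ii_spec {G : SimpleGraph ℕ} {k s : ℕ} (hk : 2 ≤ k) (hG : G.CliqueFree (k + 1))
    (hs : inCl k s (pre G s)) :
    ii k s (pre G s) < k ∧
      coR (pre G s) (comp (pre G s) s) s (zz k s (pre G s) (ii k s (pre G s))) := by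
  obtain ⟨h1, h2⟩ := zz_CM hk hs
  obtain ⟨i, hi, hi2⟩ := exists_index (pre_free hG) h1 h2 (self_mem_comp (pre G s) s)
  constructor
  · refine lt_of_le_of_lt (Nat.sInf_le ?_) hi
    exact hi2
  · exact Nat.sInf_mem (s := {i | coR (pre G s) (comp (pre G s) s) s (zz k s (pre G s) i)})
      ⟨i, hi2⟩

theorem bb_spec {G : SimpleGraph ℕ} {k s : ℕ} (hk : 2 ≤ k) (hG : G.CliqueFree (k + 1))
    (hs : inCl k s (pre G s))
    (hco : ∀ x ∈ comp (pre G s) s, coR (pre G s) (comp (pre G s) s) s x) :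
    bb k s (pre G s) < k ∧
      (pre G s).Adj (zz k s (pre G s) 0) (zz k s (pre G s) (bb k s (pre G s))) ∧
      sup (pre G s) (zz k s (pre G s) 0, zz k s (pre G s) (bb k s (pre G s))) =
        comp (pre G s) s := by
  obtain ⟨h1, h2⟩ := zz_CM hk hs
  obtain ⟨Q, hQ, hsQ⟩ := hs
  obtain ⟨w, hw, hws⟩ : ∃ w ∈ Q, w ≠ s := by
    apply Finset.exists_mem_ne
    rw [hQ.card_eq]; omega
  have hsw : (pre G s).Adj s w := hQ.isClique hsQ hw (Ne.symm hws)
  obtain ⟨p, hp, hspan⟩ := exists_span hsw (comp_fin le_rfl) hco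
  have h0 : zz k s (pre G s) 0 ∈ sup (pre G s) p := by rw [hspan]; exact h2 0 (by omega)
  obtain ⟨u, hu, hSam⟩ := hits (pre_free hG) hp h1.clique
    (Finset.mem_image_of_mem _ (Finset.mem_range.2 (by omega : 0 < k))) h0
  rw [Finset.mem_image] at hu
  obtain ⟨b, hb, rfl⟩ := hu
  rw [Finset.mem_range] at hb
  have hmem : (pre G s).Adj (zz k s (pre G s) 0) (zz k s (pre G s) b) ∧
      sup (pre G s) (zz k s (pre G s) 0, zz k s (pre G s) b) = comp (pre G s) s :=
    ⟨hSam.adj hp, by rw [sup_eq_of_sam hSam, hspan]⟩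
  refine ⟨lt_of_le_of_lt (Nat.sInf_le hmem) hb, ?_⟩
  exact Nat.sInf_mem (s := {b | (pre G s).Adj (zz k s (pre G s) 0) (zz k s (pre G s) b) ∧
    sup (pre G s) (zz k s (pre G s) 0, zz k s (pre G s) b) = comp (pre G s) s}) ⟨b, hmem⟩

/-- the anchor persists as long as the level does not change -/
theorem zz_eq {G : SimpleGraph ℕ} {k u v : ℕ} (hk : 2 ≤ k) (hu : inCl k u (pre G u))
    (hv : inCl k v (pre G v)) (huv : u < v) (hadj : G.Adj u v)
    (hlv : lv u (pre G u) = lv v (pre G v)) :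
    zz k u (pre G u) = zz k v (pre G v) := by
  have hMv : comp (pre G v) u = comp (pre G v) v :=
    comp_eq (SimpleGraph.Adj.reachable (show (pre G v).Adj v u from ⟨le_rfl, huv.le, hadj.symm⟩))
  have hsub : comp (pre G u) u ⊆ comp (pre G v) v := by
    rw [← hMv]; exact comp_sub huv.le
  have hne : ∀ t, (comp (pre G t) t).ncard ≠ 0 := by
    intro t
    rw [Ne, Set.ncard_eq_zero (comp_fin le_rfl)]
    exact Set.Nonempty.ne_empty ⟨t, self_mem_comp _ _⟩
  have hZeq : ∀ t ≤ u, Zs (pre G u) k (comp (pre G u) u) (lv u (pre G u)) t =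
      Zs (pre G v) k (comp (pre G v) v) (lv v (pre G v)) t := by
    intro t ht
    funext z
    apply propext
    unfold Zs
    rw [pre_pre ht, pre_pre (ht.trans huv.le), hlv]
    constructor
    · rintro ⟨h1, h2, h3⟩
      exact ⟨h1, hsub h2, h3⟩
    · rintro ⟨h1, h2, h3⟩
      refine ⟨h1, ?_, h3⟩
      by_contra hcon
      have hz0t : z 0 ≤ t := (h1 0 (by omega) 1 (by omega) (by omega)).1
      have hz0 : z 0 ≤ u := hz0t.trans ht
      have hA : comp (pre G t) (z 0) ⊆ comp (pre G u) (z 0) := comp_sub ht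
      have hB : comp (pre G u) (z 0) ⊆ comp (pre G v) v := by
        have : comp (pre G v) (z 0) = comp (pre G v) v := comp_eq h2
        rw [← this]; exact comp_sub huv.le
      have hdisj : Disjoint (comp (pre G u) u) (comp (pre G u) (z 0)) := by
        rw [Set.disjoint_left]
        intro x hx hx'
        exact hcon (SimpleGraph.Reachable.trans hx (SimpleGraph.Reachable.symm hx'))
      have hfu : (comp (pre G u) u).Finite := comp_fin le_rfl
      have hfz : (comp (pre G u) (z 0)).Finite := comp_fin hz0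
      have hfv : (comp (pre G v) v).Finite := comp_fin le_rfl
      have h4 := Set.ncard_union_eq hdisj hfu hfz
      have h5 : (comp (pre G u) u ∪ comp (pre G u) (z 0)).ncard ≤ (comp (pre G v) v).ncard :=
        Set.ncard_le_ncard (Set.union_subset hsub hB) hfv
      have h6 : 2 ^ lv v (pre G v) ≤ (comp (pre G u) (z 0)).ncard :=
        h3.trans (Set.ncard_le_ncard hA hfz)
      have h7 : 2 ^ lv v (pre G v) ≤ (comp (pre G u) u).ncard := by
        rw [← hlv]; exact Nat.pow_log_le_self 2 (hne u)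
      have h8 : (comp (pre G v) v).ncard < 2 ^ (lv v (pre G v) + 1) :=
        Nat.lt_pow_succ_log_self (by norm_num) _
      rw [pow_succ] at h8
      omega
  obtain ⟨hau, htu⟩ := anc_spec hk hu
  obtain ⟨hav, htv⟩ := anc_spec hk hv
  have hteq : tz (pre G u) k (comp (pre G u) u) (lv u (pre G u)) =
      tz (pre G v) k (comp (pre G v) v) (lv v (pre G v)) := by
    have h1 : tz (pre G v) k (comp (pre G v) v) (lv v (pre G v)) ≤
        tz (pre G u) k (comp (pre G u) u) (lv u (pre G u)) := by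
      apply Nat.sInf_le
      refine ⟨zz k u (pre G u), ?_⟩
      rw [← hZeq _ htu]; exact hau
    refine le_antisymm ?_ h1
    apply Nat.sInf_le
    refine ⟨zz k v (pre G v), ?_⟩
    rw [hZeq _ (h1.trans htu)]; exact hav
  unfold zz anc
  rw [hZeq _ htu, hteq]

/-- keep the edges whose ends have the same colour -/
def mono {α : Type*} (G : SimpleGraph ℕ) (c : ℕ → α) : SimpleGraph ℕ where
  Adj a b := G.Adj a b ∧ c a = c b
  symm := ⟨fun _ _ h => ⟨h.1.symm, h.2.symm⟩⟩
  loopless := ⟨fun _ h => G.loopless.irrefl _ h.1⟩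

theorem IsComp.mono {α : Type*} {G : SimpleGraph ℕ} {r : ℕ → ℕ → Prop} (hr : IsComp G r)
    (c : ℕ → α) : IsComp (mono G c) (fun a b => r a b ∧ c a = c b) := by
  refine ⟨fun a h => hr.irrefl a h.1, fun a b d h1 h2 => ⟨hr.trans _ _ _ h1.1 h2.1,
    h1.2.trans h2.2⟩, fun a b => ?_⟩
  show G.Adj a b ∧ c a = c b ↔ _
  rw [hr.adj]
  constructor
  · rintro ⟨h | h, h'⟩
    · exact Or.inl ⟨h, h'⟩
    · exact Or.inr ⟨h, h'.symm⟩
  · rintro (⟨h, h'⟩ | ⟨h, h'⟩)
    · exact ⟨Or.inl h, h'⟩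
    · exact ⟨Or.inr h, h'.symm⟩

theorem IsComp.pre {G : SimpleGraph ℕ} {r : ℕ → ℕ → Prop} (hr : IsComp G r) (s : ℕ) :
    IsComp (pre G s) (fun a b => a ≤ s ∧ b ≤ s ∧ r a b) := by
  refine ⟨fun a h => hr.irrefl a h.2.2, fun a b d h1 h2 => ⟨h1.1, h2.2.1,
    hr.trans _ _ _ h1.2.2 h2.2.2⟩, fun a b => ?_⟩
  rw [pre_adj, hr.adj]
  tauto

theorem stepFun_pos {k s : ℕ} {H : SimpleGraph ℕ} (h : inCl k s H) :
    (stepFun k s H).1 = lv s H + 1 ∧ (stepFun k s H).2.1 = ii k s H := by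
  unfold stepFun
  rw [if_pos h]
  split_ifs <;> exact ⟨rfl, rfl⟩

theorem stepFun_neg {k s : ℕ} {H : SimpleGraph ℕ} (h : ¬ inCl k s H) :
    stepFun k s H = (0, 0, 0, 0, 0) := by
  unfold stepFun
  rw [if_neg h]

theorem stepFun_one {k s : ℕ} {H : SimpleGraph ℕ} (h : inCl k s H)
    (h' : ∀ x ∈ comp H s, coR H (comp H s) s x) :
    stepFun k s H = (lv s H + 1, ii k s H, bb k s H + 1, aa k s H, ab k s H) := by
  unfold stepFun
  rw [if_pos h, if_neg]
  rintro ⟨x, hx, hn⟩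
  exact hn (h' x hx)

theorem stepFun_two {k s : ℕ} {H : SimpleGraph ℕ} (h : inCl k s H)
    (h' : ∃ x ∈ comp H s, ¬ coR H (comp H s) s x) :
    stepFun k s H = (lv s H + 1, ii k s H, 0, 0, 0) := by
  unfold stepFun
  rw [if_pos h, if_pos h']

/-- The step: no monochromatic `k`-clique. -/
theorem step_free {G : SimpleGraph ℕ} {r : ℕ → ℕ → Prop} (hr : IsComp G r) {k : ℕ}
    (hk : 2 ≤ k) (hG : G.CliqueFree (k + 1)) : (mono G (stepCol k G)).CliqueFree k := by
  intro Q hQ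
  have hQne : Q.Nonempty := by
    rw [← Finset.card_pos, hQ.card_eq]; omega
  obtain ⟨v, hvQ, hvmax⟩ : ∃ v ∈ Q, ∀ u ∈ Q, u ≤ v :=
    ⟨Q.max' hQne, Q.max'_mem hQne, fun u hu => Q.le_max' u hu⟩
  have hcol : ∀ u ∈ Q, stepCol k G u = stepCol k G v := by
    intro u hu
    by_cases h : u = v
    · rw [h]
    · exact (hQ.isClique hu hvQ h).2
  have hadjG : ∀ u ∈ Q, u ≠ v → G.Adj u v := fun u hu h => (hQ.isClique hu hvQ h).1
  have hQv : (pre G v).IsNClique k Q := by
    refine ⟨?_, hQ.card_eq⟩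
    intro a ha b hb hab
    exact ⟨hvmax a ha, hvmax b hb, (hQ.isClique ha hb hab).1⟩
  have hv : inCl k v (pre G v) := ⟨Q, hQv, hvQ⟩
  have hfree : (pre G v).CliqueFree (k + 1) := pre_free hG
  have hQM : ∀ u ∈ Q, u ∈ comp (pre G v) v := by
    intro u hu
    by_cases h : u = v
    · rw [h]; exact self_mem_comp _ _
    · exact SimpleGraph.Adj.reachable (hQv.isClique hvQ hu (Ne.symm h))
  have hin : ∀ u ∈ Q, inCl k u (pre G u) := by
    intro u hu
    by_contra hcon
    have h1 := hcol u hu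
    have h2 : stepCol k G u = (0, 0, 0, 0, 0) := stepFun_neg hcon
    have h3 : (stepCol k G v).1 = lv v (pre G v) + 1 := (stepFun_pos hv).1
    rw [← h1, h2] at h3
    simp at h3
  have hlv : ∀ u ∈ Q, lv u (pre G u) = lv v (pre G v) := by
    intro u hu
    have h1 : (stepCol k G u).1 = lv u (pre G u) + 1 := (stepFun_pos (hin u hu)).1
    have h3 : (stepCol k G v).1 = lv v (pre G v) + 1 := (stepFun_pos hv).1
    rw [hcol u hu, h3] at h1
    omega
  have hii : ∀ u ∈ Q, ii k u (pre G u) = ii k v (pre G v) := by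
    intro u hu
    have h1 : (stepCol k G u).2.1 = ii k u (pre G u) := (stepFun_pos (hin u hu)).2
    have h3 : (stepCol k G v).2.1 = ii k v (pre G v) := (stepFun_pos hv).2
    rw [hcol u hu, h3] at h1
    exact h1.symm
  have hzz : ∀ u ∈ Q, u ≠ v → zz k u (pre G u) = zz k v (pre G v) := by
    intro u hu h
    exact zz_eq hk (hin u hu) hv (lt_of_le_of_ne (hvmax u hu) h) (hadjG u hu h) (hlv u hu)
  have hsub : ∀ u ∈ Q, u ≠ v → comp (pre G u) u ⊆ comp (pre G v) v := by
    intro u hu h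
    have hMv : comp (pre G v) u = comp (pre G v) v := comp_eq (hQM u hu)
    rw [← hMv]; exact comp_sub (hvmax u hu)
  by_cases htype : ∃ x ∈ comp (pre G v) v, ¬ coR (pre G v) (comp (pre G v) v) v x
  · obtain ⟨x, hx, hvx⟩ := htype
    obtain ⟨u, hu, hnu⟩ := type_two hfree hQv hQM hx hvx
    have huv : u ≠ v := by
      rintro rfl
      exact hnu Relation.ReflTransGen.refl
    obtain ⟨-, h1⟩ := ii_spec hk hG hv
    obtain ⟨-, h2⟩ := ii_spec hk hG (hin u hu)
    rw [hii u hu, hzz u hu huv] at h2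
    have h3 : coR (pre G v) (comp (pre G v) v) u (zz k v (pre G v) (ii k v (pre G v))) :=
      coR_pre (fun x hx => comp_le le_rfl hx) (hsub u hu huv) h2
    exact hnu (Relation.ReflTransGen.trans h1 (coR_symm h3))
  · push Not at htype
    obtain ⟨-, hadj, hspan⟩ := bb_spec hk hG hv htype
    have hcv : stepCol k G v = _ := stepFun_one hv htype
    obtain ⟨u, hu, hSam⟩ := hits hfree (p := (zz k v (pre G v) 0,
      zz k v (pre G v) (bb k v (pre G v)))) hadj hQv hvQ (by rw [hspan]; exact self_mem_comp _ _)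
    have hvu : (pre G v).Adj v u := hSam.adj hadj
    have huv : u ≠ v := by
      rintro rfl
      exact (pre G u).loopless.irrefl _ hvu
    have hule : u ≤ v := hvmax u hu
    have htu : ∀ x ∈ comp (pre G u) u, coR (pre G u) (comp (pre G u) u) u x := by
      by_contra hcon
      push Not at hcon
      have h1 : stepCol k G u = _ := stepFun_two (hin u hu) hcon
      rw [hcol u hu, hcv] at h1
      simp at h1
    have hcu : stepCol k G u = _ := stepFun_one (hin u hu) htu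
    have hE := hcol u hu
    rw [hcu, hcv] at hE
    simp only [Prod.mk.injEq, Nat.add_right_cancel_iff] at hE
    obtain ⟨-, -, hbb, haa, hab⟩ := hE
    have hrv := hr.pre v
    have hfu : (pre G u).CliqueFree (k + 1) := pre_free hG
    rcases hSam with h | h
    · -- class contains (v, u)
      obtain ⟨R, hR, hRP⟩ := hgt_mem hfu
        (fun x => Cls (pre G u) (zz k u (pre G u) 0, zz k u (pre G u) (bb k u (pre G u))) (u, x))
      rw [hzz u hu huv, hbb] at hRP
      have hR' : (pre G v).IsNClique (ab k u (pre G u)) R := by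
        refine ⟨?_, hR.card_eq⟩
        intro a ha b hb hab
        exact pre_mono hule (hR.isClique ha hb hab)
      have hP' : ∀ x ∈ R, Cls (pre G v) (zz k v (pre G v) 0,
          zz k v (pre G v) (bb k v (pre G v))) (u, x) := fun x hx => cls_pre hule (hRP x hx)
      have hbig : (pre G v).IsNClique (ab k u (pre G u) + 1) (insert u R) :=
        clique_extend hR' fun x hx => (hP' x hx).adj hadj
      have : ab k u (pre G u) + 1 ≤ ab k v (pre G v) := by
        refine le_hgt hfree hbig ?_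
        intro x hx
        rw [Finset.mem_insert] at hx
        rcases hx with rfl | hx
        · exact h
        · exact hrv.cls_trans hadj h (hP' x hx)
      omega
    · obtain ⟨R, hR, hRP⟩ := hgt_mem hfu
        (fun x => Cls (pre G u) (zz k u (pre G u) 0, zz k u (pre G u) (bb k u (pre G u))) (x, u))
      rw [hzz u hu huv, hbb] at hRP
      have hR' : (pre G v).IsNClique (aa k u (pre G u)) R := by
        refine ⟨?_, hR.card_eq⟩
        intro a ha b hb hab
        exact pre_mono hule (hR.isClique ha hb hab)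
      have hP' : ∀ x ∈ R, Cls (pre G v) (zz k v (pre G v) 0,
          zz k v (pre G v) (bb k v (pre G v))) (x, u) := fun x hx => cls_pre hule (hRP x hx)
      have hbig : (pre G v).IsNClique (aa k u (pre G u) + 1) (insert u R) :=
        clique_extend hR' fun x hx => ((hP' x hx).adj hadj).symm
      have : aa k u (pre G u) + 1 ≤ aa k v (pre G v) := by
        refine le_hgt hfree hbig ?_
        intro x hx
        rw [Finset.mem_insert] at hx
        rcases hx with rfl | hx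
        · exact h
        · exact hrv.cls_trans hadj (hP' x hx) h
      omega

end Pool.Agent.Helper63.OC
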